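import Pool.Agent.H300R2.FB.ThinAbs

/-!
Bateman-Horn for almost all polynomials of height at most `H`: absolute values, both signs of the
leading coefficient.
-/

namespace Pool.Agent.H101R3.FullAbs

open Finset Polynomial Filter
open Pool.Agent.H442R2.EHI (evt_log_pow evt_log_ge)
open Pool.Agent.H300R2.BH Pool.Agent.H300R2.FB

/-- the polynomial with coefficient vector `c` -/
noncomputable def po (d : ℕ) (c : Fin (d + 1) → ℤ) : ℤ[X] := ∑ i, C (c i) * X ^ (i : ℕ)

/-- the coefficient vectors of height at most `H` -/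
noncomputable def bo (d H : ℕ) : Finset (Fin (d + 1) → ℤ) :=
  Fintype.piFinset fun _ => Icc (-(H : ℤ)) H

/-- the error term -/
noncomputable def er (z : ℕ) (F : ℤ[X]) (K : ℕ) : ℝ := |pa F K - SS z F * la F K|

lemma er_nonneg (z : ℕ) (F : ℤ[X]) (K : ℕ) : 0 ≤ er z F K := abs_nonneg _

lemma pa_neg (F : ℤ[X]) (K : ℕ) : pa (-F) K = pa F K := by
  unfold pa
  simp [eval_neg]

lemma la_neg (F : ℤ[X]) (K : ℕ) : la (-F) K = la F K := by
  unfold la
  simp [eval_neg]

lemma SS_neg (z : ℕ) (F : ℤ[X]) : SS z (-F) = SS z F := by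
  unfold SS rho
  simp [eval_neg]

lemma er_neg (z : ℕ) (F : ℤ[X]) (K : ℕ) : er z (-F) K = er z F K := by
  unfold er
  rw [pa_neg, la_neg, SS_neg]

lemma po_neg (d : ℕ) (c : Fin (d + 1) → ℤ) : po d (-c) = -po d c := by
  unfold po
  simp [sum_neg_distrib]

lemma pa_bounds (F : ℤ[X]) (K : ℕ) : 0 ≤ pa F K ∧ pa F K ≤ K := by
  unfold pa
  constructor
  · positivity
  · have h1 := card_filter_le (Icc 1 K) (fun k : ℕ => (F.eval (k : ℤ)).natAbs.Prime)
    rw [Nat.card_Icc, Nat.add_sub_cancel] at h1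
    exact_mod_cast h1

lemma la_bounds (F : ℤ[X]) (K : ℕ) : 0 ≤ la F K ∧ la F K ≤ 2 * K := by
  unfold la
  constructor
  · exact sum_nonneg fun k hk => (la_term F k (mem_filter.mp hk).2).1
  · calc _ ≤ ∑ k ∈ (Icc 1 K).filter (fun k : ℕ => 2 ≤ |F.eval (k : ℤ)|), (2:ℝ) :=
          sum_le_sum fun k hk => (la_term F k (mem_filter.mp hk).2).2
      _ ≤ ∑ k ∈ Icc 1 K, (2:ℝ) :=
          sum_le_sum_of_subset_of_nonneg (filter_subset _ _) fun _ _ _ => by norm_num
      _ = 2 * K := by rw [sum_const, Nat.card_Icc, nsmul_eq_mul, Nat.add_sub_cancel]; ring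

lemma er_trivial {z : ℕ} {F : ℤ[X]} {L : ℝ} (h0 : 0 ≤ SS z F) (h1 : SS z F ≤ L) (hL : 1 ≤ L)
    (K : ℕ) : er z F K ≤ 3 * L * K := by
  obtain ⟨a1, a2⟩ := pa_bounds F K
  obtain ⟨b1, b2⟩ := la_bounds F K
  have hK : (0:ℝ) ≤ K := Nat.cast_nonneg _
  have h2 : SS z F * la F K ≤ L * (2 * K) := mul_le_mul h1 b2 b1 (by linarith)
  have h3 : 0 ≤ SS z F * la F K := mul_nonneg h0 b1
  have h4 : (K:ℝ) ≤ L * K := le_mul_of_one_le_left hK hL
  unfold er
  rw [abs_le]
  constructor <;> linarith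

/-- monotonicity in `K` -/
lemma pa_mono (F : ℤ[X]) {K K' : ℕ} (h : K' ≤ K) : 0 ≤ pa F K - pa F K' ∧
    pa F K - pa F K' ≤ (K:ℝ) - K' := by
  classical
  unfold pa
  have hsub : (Icc 1 K').filter (fun k : ℕ => (F.eval (k : ℤ)).natAbs.Prime) ⊆
      (Icc 1 K).filter (fun k : ℕ => (F.eval (k : ℤ)).natAbs.Prime) :=
    filter_subset_filter _ (Icc_subset_Icc_right h)
  constructor
  · have := card_le_card hsub
    have h2 : ((((Icc 1 K').filter (fun k : ℕ => (F.eval (k : ℤ)).natAbs.Prime)).card : ℕ) : ℝ) ≤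
      (((Icc 1 K).filter (fun k : ℕ => (F.eval (k : ℤ)).natAbs.Prime)).card : ℕ) := by
      exact_mod_cast this
    linarith
  · have h3 : ((Icc 1 K).filter (fun k : ℕ => (F.eval (k : ℤ)).natAbs.Prime)) ⊆
        ((Icc 1 K').filter (fun k : ℕ => (F.eval (k : ℤ)).natAbs.Prime)) ∪ Ioc K' K := by
      intro k hk
      rw [mem_filter, mem_Icc] at hk
      rw [mem_union, mem_filter, mem_Icc, mem_Ioc]
      by_cases hkk : k ≤ K'
      · exact Or.inl ⟨⟨hk.1.1, hkk⟩, hk.2⟩
      · exact Or.inr ⟨by omega, hk.1.2⟩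
    have h4 := (card_le_card h3).trans (card_union_le _ _)
    rw [Nat.card_Ioc] at h4
    have h5 : ((((Icc 1 K).filter (fun k : ℕ => (F.eval (k : ℤ)).natAbs.Prime)).card : ℕ) : ℝ) ≤
      (((Icc 1 K').filter (fun k : ℕ => (F.eval (k : ℤ)).natAbs.Prime)).card : ℝ) + ((K - K' : ℕ) : ℝ) := by
      exact_mod_cast h4
    rw [Nat.cast_sub h] at h5
    linarith

lemma la_mono (F : ℤ[X]) {K K' : ℕ} (h : K' ≤ K) : 0 ≤ la F K - la F K' ∧
    la F K - la F K' ≤ 2 * ((K:ℝ) - K') := by
  classical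
  have hla : ∀ K, la F K = ∑ k ∈ Icc 1 K, if 2 ≤ |F.eval (k : ℤ)| then
      1 / Real.log |((F.eval (k : ℤ) : ℤ) : ℝ)| else 0 := by
    intro K
    unfold la
    rw [sum_filter]
  have hIcc : Icc 1 K = Icc 1 K' ∪ Ioc K' K := by
    ext k
    simp only [mem_union, mem_Icc, mem_Ioc]
    omega
  have hdis : Disjoint (Icc 1 K') (Ioc K' K) := by
    rw [disjoint_left]
    intro k h1 h2
    rw [mem_Icc] at h1
    rw [mem_Ioc] at h2
    omega
  have e1 : la F K - la F K' = ∑ k ∈ Ioc K' K, if 2 ≤ |F.eval (k : ℤ)| then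
      1 / Real.log |((F.eval (k : ℤ) : ℤ) : ℝ)| else 0 := by
    rw [hla K, hla K', hIcc, sum_union hdis]
    ring
  rw [e1]
  constructor
  · refine sum_nonneg fun k _ => ?_
    split_ifs with h2
    · exact (la_term F k h2).1
    · exact le_rfl
  · calc _ ≤ ∑ k ∈ Ioc K' K, (2:ℝ) := by
          refine sum_le_sum fun k _ => ?_
          split_ifs with h2
          · exact (la_term F k h2).2
          · norm_num
      _ = 2 * ((K:ℝ) - K') := by
          rw [sum_const, Nat.card_Ioc, nsmul_eq_mul, Nat.cast_sub h]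
          ring

/-- the polynomials of the box `bo` with positive leading coefficient are the polynomials `FP` -/
lemma po_eq (m H : ℕ) (r : Fin m → ℤ) (a d : ℕ) :
    po (m + 1) (Fin.cons ((a : ℤ) - H - 1) (Fin.snoc r (d : ℤ))) = FP (m + 1) H r a d := by
  unfold po FP FF Rr
  rw [Fin.sum_univ_succ, Fin.sum_univ_castSucc]
  simp only [Fin.cons_zero, Fin.cons_succ, Fin.snoc_castSucc, Fin.snoc_last, Fin.val_zero, pow_zero,
    mul_one, Fin.val_succ, Fin.val_castSucc, Fin.val_last, Nat.add_sub_cancel, one_mul, add_zero]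
  have h1 : (C ((a : ℤ) - H - 1) : ℤ[X]) = C (a : ℤ) + C (-(H : ℤ) - 1) := by
    rw [← C_add]
    congr 1
    ring
  rw [h1]
  ring_nf
  congr 1
  exact Finset.sum_congr rfl fun x _ => by ring

lemma sum_pos_box (m H : ℕ) (g : (Fin (m + 1 + 1) → ℤ) → ℝ) :
    ∑ c ∈ (bo (m + 1) H).filter (fun c => 0 < c (Fin.last _)), g c =
    ∑ r ∈ bx (m + 1) (fun _ => H), ∑ a ∈ Ioc 0 (0 + (2 * H + 1)), ∑ d ∈ Ioc 0 H,
      g (Fin.cons ((a : ℤ) - H - 1) (Fin.snoc r (d : ℤ))) := by
  have h1 : ∑ r ∈ bx (m + 1) (fun _ => H), ∑ a ∈ Ioc 0 (0 + (2 * H + 1)), ∑ d ∈ Ioc 0 H,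
      g (Fin.cons ((a : ℤ) - H - 1) (Fin.snoc r (d : ℤ))) =
      ∑ x ∈ bx (m + 1) (fun _ => H) ×ˢ (Ioc 0 (0 + (2 * H + 1)) ×ˢ Ioc 0 H),
        g (Fin.cons ((x.2.1 : ℤ) - H - 1) (Fin.snoc x.1 (x.2.2 : ℤ))) := by
    rw [sum_product]
    refine sum_congr rfl fun r _ => ?_
    rw [sum_product]
  rw [h1]
  refine Finset.sum_nbij' (i := fun c => ((fun i : Fin m => c i.castSucc.succ),
      ((c 0 + H + 1).toNat, (c (Fin.last _)).toNat)))
    (j := fun x => Fin.cons ((x.2.1 : ℤ) - H - 1) (Fin.snoc x.1 (x.2.2 : ℤ))) ?_ ?_ ?_ ?_ ?_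
  · intro c hc
    rw [mem_filter] at hc
    obtain ⟨hc1, hc2⟩ := hc
    unfold bo at hc1
    rw [Fintype.mem_piFinset] at hc1
    rw [mem_product, mem_product]
    have h0 := hc1 0
    have hl := hc1 (Fin.last _)
    rw [mem_Icc] at h0 hl
    refine ⟨?_, ?_, ?_⟩
    · unfold bx
      rw [Fintype.mem_piFinset]
      intro i
      exact hc1 _
    · rw [mem_Ioc]
      simp only
      omega
    · rw [mem_Ioc]
      simp only
      omega
  · intro x hx
    rw [mem_product, mem_product, mem_Ioc, mem_Ioc] at hx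
    obtain ⟨h1, h2, h3⟩ := hx
    unfold bx at h1
    rw [Fintype.mem_piFinset] at h1
    rw [mem_filter]
    constructor
    · unfold bo
      rw [Fintype.mem_piFinset]
      intro i
      refine Fin.cases ?_ (fun i => ?_) i
      · rw [Fin.cons_zero, mem_Icc]
        omega
      · rw [Fin.cons_succ]
        refine Fin.lastCases ?_ (fun i => ?_) i
        · rw [Fin.snoc_last, mem_Icc]
          omega
        · rw [Fin.snoc_castSucc]
          exact h1 i
    · rw [show Fin.last (m + 1) = (Fin.last m).succ by rfl, Fin.cons_succ, Fin.snoc_last]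
      omega
  · intro c hc
    rw [mem_filter] at hc
    obtain ⟨hc1, hc2⟩ := hc
    unfold bo at hc1
    rw [Fintype.mem_piFinset] at hc1
    have h0 := hc1 0
    have hl := hc1 (Fin.last _)
    rw [mem_Icc] at h0 hl
    funext i
    refine Fin.cases ?_ (fun i => ?_) i
    · rw [Fin.cons_zero]
      simp only
      omega
    · rw [Fin.cons_succ]
      refine Fin.lastCases ?_ (fun i => ?_) i
      · rw [Fin.snoc_last]
        simp only
        have h5 : Fin.last (m + 1) = (Fin.last m).succ := rfl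
        rw [h5] at hc2 ⊢
        omega
      · rw [Fin.snoc_castSucc]
  · intro x hx
    rw [mem_product, mem_product, mem_Ioc, mem_Ioc] at hx
    obtain ⟨h1, h2, h3⟩ := hx
    refine Prod.ext ?_ (Prod.ext ?_ ?_)
    · funext i
      simp only [Fin.cons_succ, Fin.snoc_castSucc]
    · simp only [Fin.cons_zero]
      omega
    · simp only
      rw [show Fin.last (m + 1) = (Fin.last m).succ by rfl, Fin.cons_succ, Fin.snoc_last]
      omega
  · intro c hc
    rw [mem_filter] at hc
    obtain ⟨hc1, hc2⟩ := hc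
    unfold bo at hc1
    rw [Fintype.mem_piFinset] at hc1
    have h0 := hc1 0
    have hl := hc1 (Fin.last _)
    rw [mem_Icc] at h0 hl
    congr 1
    funext i
    refine Fin.cases ?_ (fun i => ?_) i
    · rw [Fin.cons_zero]
      dsimp only
      omega
    · rw [Fin.cons_succ]
      refine Fin.lastCases ?_ (fun i => ?_) i
      · rw [Fin.snoc_last]
        dsimp only
        have h5 : Fin.last (m + 1) = (Fin.last m).succ := rfl
        rw [h5] at hc2 ⊢
        omega
      · rw [Fin.snoc_castSucc]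

lemma bo_card (d H : ℕ) : (bo d H).card = (2 * H + 1) ^ (d + 1) := by
  unfold bo
  rw [Fintype.card_piFinset]
  simp only [Int.card_Icc, prod_const, card_univ, Fintype.card_fin]
  congr 1
  omega

lemma bx_card (m H : ℕ) : (bx (m + 1) (fun _ => H)).card = (2 * H + 1) ^ m := by
  unfold bx
  rw [Fintype.card_piFinset]
  simp only [Int.card_Icc, prod_const, card_univ, Fintype.card_fin, Nat.add_sub_cancel]
  congr 1
  omega

lemma zero_card (m H : ℕ) : ((bo (m + 1) H).filter (fun c => c (Fin.last _) = 0)).card ≤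
    (2 * H + 1) ^ (m + 1) := by
  classical
  have h1 : ((bo (m + 1) H).filter (fun c => c (Fin.last _) = 0)).card ≤ (bo m H).card := by
    apply card_le_card_of_injOn (fun c => fun i : Fin (m + 1) => c i.castSucc)
    · intro c hc
      rw [mem_coe, mem_filter] at hc
      unfold bo at hc
      rw [Fintype.mem_piFinset] at hc
      rw [mem_coe]
      unfold bo
      rw [Fintype.mem_piFinset]
      intro i
      exact hc.1 _
    · intro c hc c' hc' h
      rw [mem_coe, mem_filter] at hc hc'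
      funext i
      refine Fin.lastCases ?_ (fun i => ?_) i
      · rw [hc.2, hc'.2]
      · exact congrFun h i
  rw [bo_card] at h1
  exact h1

/-- sums of nonnegative even functions over the box -/
lemma sum_box_le (m H : ℕ) (g : (Fin (m + 1 + 1) → ℤ) → ℝ) (hg : ∀ c, 0 ≤ g c)
    (hev : ∀ c, g (-c) = g c) (T : ℝ) (hT : ∀ c ∈ bo (m + 1) H, g c ≤ T) (hT0 : 0 ≤ T) :
    ∑ c ∈ bo (m + 1) H, g c ≤
      2 * ∑ c ∈ (bo (m + 1) H).filter (fun c => 0 < c (Fin.last _)), g c +
      (2 * H + 1 : ℝ) ^ (m + 1) * T := by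
  classical
  have h1 : ∑ c ∈ bo (m + 1) H, g c =
      ∑ c ∈ (bo (m + 1) H).filter (fun c => 0 < c (Fin.last _)), g c +
      (∑ c ∈ (bo (m + 1) H).filter (fun c => c (Fin.last _) < 0), g c +
      ∑ c ∈ (bo (m + 1) H).filter (fun c => c (Fin.last _) = 0), g c) := by
    rw [← sum_filter_add_sum_filter_not (bo (m + 1) H) (fun c => 0 < c (Fin.last _))]
    congr 1
    rw [← sum_filter_add_sum_filter_not ((bo (m + 1) H).filter (fun c => ¬ 0 < c (Fin.last _)))
      (fun c => c (Fin.last _) < 0)]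
    rw [filter_filter, filter_filter]
    congr 1
    · apply sum_congr _ fun _ _ => rfl
      apply filter_congr
      intro c _
      constructor
      · exact fun h => h.2
      · exact fun h => ⟨by omega, h⟩
    · apply sum_congr _ fun _ _ => rfl
      apply filter_congr
      intro c _
      omega
  have h2 : ∑ c ∈ (bo (m + 1) H).filter (fun c => c (Fin.last _) < 0), g c =
      ∑ c ∈ (bo (m + 1) H).filter (fun c => 0 < c (Fin.last _)), g c := by
    refine Finset.sum_nbij' (i := fun c => -c) (j := fun c => -c) ?_ ?_ ?_ ?_ ?_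
    · intro c hc
      rw [mem_filter] at hc ⊢
      unfold bo at hc ⊢
      rw [Fintype.mem_piFinset] at hc ⊢
      refine ⟨fun i => ?_, ?_⟩
      · have := hc.1 i
        rw [mem_Icc] at this ⊢
        simp only [Pi.neg_apply]
        omega
      · simp only [Pi.neg_apply]
        omega
    · intro c hc
      rw [mem_filter] at hc ⊢
      unfold bo at hc ⊢
      rw [Fintype.mem_piFinset] at hc ⊢
      refine ⟨fun i => ?_, ?_⟩
      · have := hc.1 i
        rw [mem_Icc] at this ⊢
        simp only [Pi.neg_apply]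
        omega
      · simp only [Pi.neg_apply]
        omega
    · intro c _
      simp
    · intro c _
      simp
    · intro c _
      exact (hev c).symm
  have h3 : ∑ c ∈ (bo (m + 1) H).filter (fun c => c (Fin.last _) = 0), g c ≤
      (2 * H + 1 : ℝ) ^ (m + 1) * T := by
    calc _ ≤ ∑ c ∈ (bo (m + 1) H).filter (fun c => c (Fin.last _) = 0), T :=
          sum_le_sum fun c hc => hT c (mem_filter.mp hc).1
      _ = (((bo (m + 1) H).filter (fun c => c (Fin.last _) = 0)).card : ℝ) * T := by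
          rw [sum_const, nsmul_eq_mul]
      _ ≤ _ := by
          apply mul_le_mul_of_nonneg_right _ hT0
          exact_mod_cast zero_card m H
  rw [h1, h2]
  linarith

end Pool.Agent.H101R3.FullAbs
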