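import Pool.Agent.H101R3.FullMean

/-!
Bateman-Horn for almost all polynomials of height at most `H`, simultaneously for all `K` in
`[H^ε, H / (log H)^B]`.
-/

namespace Pool.Agent.H101R3.FullAbs

open Finset Polynomial Filter
open Pool.Agent.H442R2.EHI (evt_log_pow evt_log_ge)
open Pool.Agent.H300R2.BH Pool.Agent.H300R2.FB

lemma po_coeff (d : ℕ) (c : Fin (d + 1) → ℤ) (i : Fin (d + 1)) : (po d c).coeff (i : ℕ) = c i := by
  unfold po
  rw [finset_sum_coeff]
  simp only [coeff_C_mul, coeff_X_pow]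
  rw [sum_eq_single i]
  · simp
  · intro b _ hb
    rw [if_neg]
    · simp
    · intro h
      exact hb (Fin.ext h.symm)
  · intro h
    exact absurd (mem_univ i) h

lemma po_natDegree (d : ℕ) (c : Fin (d + 1) → ℤ) : (po d c).natDegree ≤ d := by
  unfold po
  refine natDegree_sum_le_of_forall_le _ _ fun i _ => ?_
  refine (natDegree_C_mul_X_pow_le _ _).trans ?_
  have := i.2
  omega

lemma po_eval (d : ℕ) (c : Fin (d + 1) → ℤ) (k : ℤ) : (po d c).eval k = ∑ i, c i * k ^ (i : ℕ) := by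
  unfold po
  rw [eval_finset_sum]
  refine sum_congr rfl fun i _ => ?_
  simp [eval_mul, eval_pow]

lemma po_eval_le (d H K : ℕ) (c : Fin (d + 1) → ℤ) (hc : c ∈ bo d H) (k : ℕ) (hk : 1 ≤ k)
    (hkK : k ≤ K) : |(((po d c).eval (k : ℤ) : ℤ) : ℝ)| ≤ (d + 1) * (H * (K:ℝ) ^ d) := by
  unfold bo at hc
  rw [Fintype.mem_piFinset] at hc
  rw [po_eval]
  push_cast
  have hkr : (1:ℝ) ≤ k := by exact_mod_cast hk
  have hkK' : (k:ℝ) ≤ K := by exact_mod_cast hkK
  calc |∑ i : Fin (d + 1), (c i : ℝ) * (k : ℝ) ^ (i : ℕ)|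
      ≤ ∑ i : Fin (d + 1), |(c i : ℝ) * (k : ℝ) ^ (i : ℕ)| := abs_sum_le_sum_abs _ _
    _ ≤ ∑ i : Fin (d + 1), (H : ℝ) * (K:ℝ) ^ d := by
        refine sum_le_sum fun i _ => ?_
        have h1 := hc i
        rw [mem_Icc] at h1
        have h2 : |(c i : ℝ)| ≤ H := by
          rw [abs_le]
          exact ⟨by exact_mod_cast h1.1, by exact_mod_cast h1.2⟩
        rw [abs_mul, abs_of_nonneg (by positivity : (0:ℝ) ≤ (k:ℝ) ^ (i : ℕ))]
        have h3 : (k:ℝ) ^ (i : ℕ) ≤ (K:ℝ) ^ d := by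
          calc (k:ℝ) ^ (i : ℕ) ≤ (K:ℝ) ^ (i : ℕ) := by gcongr
            _ ≤ (K:ℝ) ^ d := pow_le_pow_right₀ (by linarith) (by have := i.2; omega)
        exact mul_le_mul h2 h3 (by positivity) (by positivity)
    _ = _ := by
        rw [sum_const, card_univ, Fintype.card_fin, nsmul_eq_mul]
        push_cast
        ring

/-- few small values -/
lemma small_values (F : ℤ[X]) (d : ℕ) (h1 : 1 ≤ F.natDegree) (h2 : F.natDegree ≤ d) (K : ℕ) :
    ((Icc 1 K).filter (fun k : ℕ => ¬ 2 ≤ |F.eval (k : ℤ)|)).card ≤ 3 * d := by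
  classical
  have hone : ∀ v : ℤ, ((Icc 1 K).filter (fun k : ℕ => F.eval (k : ℤ) = v)).card ≤ d := by
    intro v
    have hne : F - C v ≠ 0 := by
      intro h0
      have h3 : (F - C v).natDegree = F.natDegree := natDegree_sub_C
      rw [h0, natDegree_zero] at h3
      omega
    have h4 : ((Icc 1 K).filter (fun k : ℕ => F.eval (k : ℤ) = v)).card ≤
        (F - C v).roots.toFinset.card := by
      apply card_le_card_of_injOn (fun k : ℕ => (k : ℤ))
      · intro k hk
        rw [mem_coe, mem_filter] at hk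
        rw [mem_coe, Multiset.mem_toFinset, mem_roots hne, IsRoot.def, eval_sub, eval_C, hk.2,
          sub_self]
      · intro a _ b _ h
        exact_mod_cast (show (a : ℤ) = b from h)
    refine h4.trans ((Multiset.toFinset_card_le _).trans ((card_roots' _).trans ?_))
    rw [natDegree_sub_C]
    exact h2
  have hsub : (Icc 1 K).filter (fun k : ℕ => ¬ 2 ≤ |F.eval (k : ℤ)|) ⊆
      ((Icc 1 K).filter (fun k : ℕ => F.eval (k : ℤ) = -1) ∪
      (Icc 1 K).filter (fun k : ℕ => F.eval (k : ℤ) = 0)) ∪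
      (Icc 1 K).filter (fun k : ℕ => F.eval (k : ℤ) = 1) := by
    intro k hk
    rw [mem_filter] at hk
    rw [mem_union, mem_union, mem_filter, mem_filter, mem_filter]
    have h5 := hk.2
    push Not at h5
    have h6 := abs_lt.mp h5
    rcases (by omega : F.eval (k : ℤ) = -1 ∨ F.eval (k : ℤ) = 0 ∨ F.eval (k : ℤ) = 1) with h | h | h
    · exact Or.inl (Or.inl ⟨hk.1, h⟩)
    · exact Or.inl (Or.inr ⟨hk.1, h⟩)
    · exact Or.inr ⟨hk.1, h⟩
  have h7 := (card_le_card hsub).trans (card_union_le _ _)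
  have h8 := card_union_le ((Icc 1 K).filter (fun k : ℕ => F.eval (k : ℤ) = -1))
    ((Icc 1 K).filter (fun k : ℕ => F.eval (k : ℤ) = 0))
  have := hone (-1)
  have := hone 0
  have := hone 1
  omega

/-- lower bound for the logarithmic sum -/
lemma la_lower (F : ℤ[X]) (d : ℕ) (h1 : 1 ≤ F.natDegree) (h2 : F.natDegree ≤ d) (K : ℕ) (Λ : ℝ)
    (hΛ : 0 < Λ) (hK : 6 * d ≤ K)
    (hv : ∀ k : ℕ, 1 ≤ k → k ≤ K → 2 ≤ |F.eval (k : ℤ)| →
      Real.log |((F.eval (k : ℤ) : ℤ) : ℝ)| ≤ Λ) : K / (2 * Λ) ≤ la F K := by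
  classical
  have h3 := small_values F d h1 h2 K
  have h4 := card_filter_add_card_filter_not (s := Icc 1 K) (fun k : ℕ => 2 ≤ |F.eval (k : ℤ)|)
  rw [Nat.card_Icc, Nat.add_sub_cancel] at h4
  have h5 : (K:ℝ) / 2 ≤ (((Icc 1 K).filter (fun k : ℕ => 2 ≤ |F.eval (k : ℤ)|)).card : ℝ) := by
    have h6 : K ≤ 2 * ((Icc 1 K).filter (fun k : ℕ => 2 ≤ |F.eval (k : ℤ)|)).card := by omega
    have h7 : (K:ℝ) ≤ 2 * (((Icc 1 K).filter (fun k : ℕ => 2 ≤ |F.eval (k : ℤ)|)).card : ℝ) := by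
      exact_mod_cast h6
    linarith
  unfold la
  calc K / (2 * Λ) = (K / 2) * (1 / Λ) := by field_simp
    _ ≤ (((Icc 1 K).filter (fun k : ℕ => 2 ≤ |F.eval (k : ℤ)|)).card : ℝ) * (1 / Λ) := by gcongr
    _ = ∑ k ∈ (Icc 1 K).filter (fun k : ℕ => 2 ≤ |F.eval (k : ℤ)|), 1 / Λ := by
        rw [sum_const, nsmul_eq_mul]
    _ ≤ _ := by
        refine sum_le_sum fun k hk => ?_
        rw [mem_filter, mem_Icc] at hk
        have h8 : (2:ℝ) ≤ |((F.eval (k : ℤ) : ℤ) : ℝ)| := by exact_mod_cast hk.2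
        apply one_div_le_one_div_of_le (Real.log_pos (by linarith))
        exact hv k hk.1.1 hk.1.2 hk.2

/-- number of constant polynomials of the box -/
lemma const_card (d H : ℕ) : ((bo d H).filter (fun c => ∀ i, i ≠ 0 → c i = 0)).card ≤ 2 * H + 1 := by
  classical
  have h1 : ((bo d H).filter (fun c => ∀ i, i ≠ 0 → c i = 0)).card ≤ (Icc (-(H:ℤ)) H).card := by
    apply card_le_card_of_injOn (fun c => c 0)
    · intro c hc
      rw [mem_coe, mem_filter] at hc
      unfold bo at hc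
      rw [Fintype.mem_piFinset] at hc
      exact hc.1 0
    · intro c hc c' hc' h
      rw [mem_coe, mem_filter] at hc hc'
      funext i
      by_cases hi : i = 0
      · rw [hi]; exact h
      · rw [hc.2 i hi, hc'.2 i hi]
  rw [Int.card_Icc] at h1
  omega

lemma po_pos_degree (d : ℕ) (c : Fin (d + 1) → ℤ) (h : ¬ ∀ i, i ≠ 0 → c i = 0) :
    1 ≤ (po d c).natDegree := by
  push Not at h
  obtain ⟨i, hi, hci⟩ := h
  have h1 : (po d c).coeff (i : ℕ) ≠ 0 := by rw [po_coeff]; exact hci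
  have h2 := le_natDegree_of_ne_zero h1
  have h3 : 1 ≤ (i : ℕ) := by
    rcases Nat.eq_zero_or_pos (i : ℕ) with h0 | h0
    · exact absurd (Fin.ext h0) hi
    · exact h0
  omega

/-- the grid -/
noncomputable def gr (T : ℝ) (i : ℕ) : ℕ := ⌈Real.exp ((i : ℝ) / T)⌉₊

lemma grid (T : ℝ) (hT : 2 ≤ T) (K : ℕ) (hK : 1 ≤ K) :
    gr T ⌊T * Real.log K⌋₊ ≤ K ∧ (K : ℝ) - gr T ⌊T * Real.log K⌋₊ ≤ 2 / T * K ∧
    (K : ℝ) ≤ 2 * gr T ⌊T * Real.log K⌋₊ := by
  have hT0 : 0 < T := by linarith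
  have hKr : (1:ℝ) ≤ K := by exact_mod_cast hK
  have hK0 : (0:ℝ) < K := by linarith
  have hl : 0 ≤ Real.log K := Real.log_nonneg hKr
  set i := ⌊T * Real.log K⌋₊ with hi
  have h1 : (i : ℝ) ≤ T * Real.log K := Nat.floor_le (by positivity)
  have h2 : T * Real.log K < i + 1 := Nat.lt_floor_add_one _
  have h3 : Real.exp ((i : ℝ) / T) ≤ K := by
    rw [← Real.exp_log hK0]
    apply Real.exp_le_exp.mpr
    rw [div_le_iff₀ hT0]
    linarith
  have h4 : gr T i ≤ K := by
    unfold gr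
    exact Nat.ceil_le.mpr h3
  have h5 : (K : ℝ) ≤ gr T i * Real.exp (1 / T) := by
    calc (K : ℝ) = Real.exp (Real.log K) := (Real.exp_log hK0).symm
      _ ≤ Real.exp ((i : ℝ) / T + 1 / T) := by
          apply Real.exp_le_exp.mpr
          rw [← add_div, le_div_iff₀ hT0]
          linarith
      _ = Real.exp ((i : ℝ) / T) * Real.exp (1 / T) := Real.exp_add _ _
      _ ≤ gr T i * Real.exp (1 / T) := by
          apply mul_le_mul_of_nonneg_right _ (Real.exp_pos _).le
          exact Nat.le_ceil _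
  have h6 : Real.exp (1 / T) ≤ 1 + 2 / T := by
    have h7 : 1 / T ≤ 1 / 2 := one_div_le_one_div_of_le (by norm_num) hT
    have h70 : 0 < 1 / T := by positivity
    have h8 : Real.exp (1 / T) * (1 - 1 / T) ≤ 1 := by
      have h9 : 1 - 1 / T ≤ Real.exp (-(1 / T)) := by
        have := Real.add_one_le_exp (-(1 / T))
        linarith
      calc Real.exp (1 / T) * (1 - 1 / T) ≤ Real.exp (1 / T) * Real.exp (-(1 / T)) := by gcongr
        _ = 1 := by rw [← Real.exp_add]; simp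
    have h10 : (1:ℝ) ≤ (1 + 2 / T) * (1 - 1 / T) := by
      have : (2:ℝ) / T = 2 * (1 / T) := by ring
      rw [this]
      nlinarith
    have h11 : 0 < 1 - 1 / T := by linarith
    exact le_of_mul_le_mul_right (h8.trans h10) h11
  have hg0 : (0:ℝ) ≤ gr T i := Nat.cast_nonneg _
  have h12 : (K : ℝ) ≤ gr T i * (1 + 2 / T) := h5.trans (by gcongr)
  have h4' : (gr T i : ℝ) ≤ K := by exact_mod_cast h4
  have h2T : 2 / T ≤ 1 := by rw [div_le_one hT0]; exact hT
  have h2T0 : 0 < 2 / T := by positivity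
  refine ⟨h4, ?_, ?_⟩
  · have : (gr T i : ℝ) * (2 / T) ≤ K * (2 / T) := by gcongr
    nlinarith
  · nlinarith

lemma er_diff {z : ℕ} {F : ℤ[X]} {L : ℝ} (h0 : 0 ≤ SS z F) (h1 : SS z F ≤ L) (hL : 1 ≤ L)
    {K K' : ℕ} (h : K' ≤ K) : er z F K ≤ er z F K' + 3 * L * ((K:ℝ) - K') := by
  obtain ⟨a1, a2⟩ := pa_mono F h
  obtain ⟨b1, b2⟩ := la_mono F h
  have hKK : (0:ℝ) ≤ (K:ℝ) - K' := by
    have : (K':ℝ) ≤ K := by exact_mod_cast h
    linarith
  unfold er
  have e1 : pa F K - SS z F * la F K = (pa F K' - SS z F * la F K') +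
      ((pa F K - pa F K') + (-(SS z F * (la F K - la F K')))) := by ring
  rw [e1]
  refine (abs_add_le _ _).trans ?_
  have h2 := abs_add_le (pa F K - pa F K') (-(SS z F * (la F K - la F K')))
  have h3 : |-(SS z F * (la F K - la F K'))| ≤ L * (2 * ((K:ℝ) - K')) := by
    rw [abs_neg, abs_of_nonneg (mul_nonneg h0 b1)]
    exact mul_le_mul h1 b2 b1 (by linarith)
  rw [abs_of_nonneg a1] at h2
  have h4 : (K:ℝ) - K' ≤ L * ((K:ℝ) - K') := le_mul_of_one_le_left hKK hL
  linarith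

open Classical in
/-- **Bateman-Horn for almost all polynomials of height at most `H`**, simultaneously for all `K` in
`[H^ε, H / (log H)^B]`. -/
theorem exc_box (j : ℕ) (hj : 1 ≤ j) (ε : ℝ) (hε : 0 < ε) (U : ℕ) : ∃ E1 : ℕ, ∀ E : ℕ, E1 ≤ E →
    ∃ B H0 : ℕ, ∀ H : ℕ, H0 ≤ H →
    (((bo j H).filter (fun c =>
      (∀ p : ℕ, p.Prime → p ≤ ⌊Real.log H ^ E⌋₊ → rho (po j c) p ≠ p) ∧
      ∃ K : ℕ, (H : ℝ) ^ ε ≤ K ∧ (K : ℝ) * Real.log H ^ B ≤ H ∧
        SS ⌊Real.log H ^ E⌋₊ (po j c) * la (po j c) K / Real.log H ^ U <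
        er ⌊Real.log H ^ E⌋₊ (po j c) K)).card : ℝ) ≤ ((bo j H).card : ℝ) / Real.log H ^ U := by
  obtain ⟨E1, hE1⟩ := mean_box j hj (ε / 2) (by positivity) (3 * U + 14)
  refine ⟨E1 + 1, fun E hE => ?_⟩
  obtain ⟨B, H1, hmean⟩ := hE1 E (by omega)
  obtain ⟨c, hc, hSSl⟩ := SS_lower j hj
  obtain ⟨H2, hSS⟩ := SS_small (E - 1)
  rw [show E - 1 + 1 = E by omega] at hSS
  have hlogs : ∀ᶠ x : ℕ in atTop, (E * Real.log (Real.log x)) ^ (2 * j) * 4 ≤ c * Real.log x := by
    have h1 : (fun t : ℝ => Real.log t ^ (2 * j)) =o[atTop] fun t : ℝ => t :=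
      Real.isLittleO_pow_log_id_atTop
    have h2 := h1.bound (show (0:ℝ) < c / (4 * (1 + E) ^ (2 * j)) by positivity)
    have h3 := (Real.tendsto_log_atTop.comp (tendsto_natCast_atTop_atTop (R := ℝ))).eventually h2
    filter_upwards [h3, evt_log_ge (Real.exp 1)] with x hx hx2
    simp only [Function.comp] at hx
    have ht0 : 0 < Real.log x := lt_of_lt_of_le (Real.exp_pos 1) hx2
    have hl : 1 ≤ Real.log (Real.log x) := by
      rw [Real.le_log_iff_exp_le ht0]; exact hx2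
    rw [Real.norm_of_nonneg (by positivity), Real.norm_of_nonneg ht0.le] at hx
    calc (E * Real.log (Real.log x)) ^ (2 * j) * 4
        ≤ ((1 + E) * Real.log (Real.log x)) ^ (2 * j) * 4 := by
          gcongr
          linarith
      _ = (4 * (1 + E) ^ (2 * j)) * Real.log (Real.log x) ^ (2 * j) := by
          rw [mul_pow]; ring
      _ ≤ (4 * (1 + E) ^ (2 * j)) * (c / (4 * (1 + E) ^ (2 * j)) * Real.log x) := by gcongr
      _ = c * Real.log x := by field_simp
  have hev : ∀ᶠ H : ℕ in atTop, H1 ≤ H ∧ H2 ≤ H ∧ 8 + 2 * ((j:ℝ) + 2) ≤ Real.log H ∧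
      (E * Real.log (Real.log H)) ^ (2 * j) * 4 ≤ c * Real.log H ∧
      Real.log H ^ (U + 2) ≤ (H:ℝ) ^ (1:ℝ) ∧ Real.log H ^ 1 ≤ (H:ℝ) ^ (ε / 2) ∧
      3 + 6 * j ≤ H := by
    filter_upwards [eventually_ge_atTop H1, eventually_ge_atTop H2,
      evt_log_ge (8 + 2 * ((j:ℝ) + 2)), hlogs, evt_log_pow (U + 2) 1 (by norm_num),
      evt_log_pow 1 (ε / 2) (by positivity), eventually_ge_atTop (3 + 6 * j)]
      with H h1 h2 h3 h4 h5 h6 h7
    exact ⟨h1, h2, h3, h4, h5, h6, h7⟩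
  obtain ⟨H0, hH0⟩ := eventually_atTop.mp hev
  refine ⟨B, H0, fun H hH => ?_⟩
  obtain ⟨hH1, hH2, hLj, hll, hLH, hLε, hHj⟩ := hH0 H hH
  rw [Real.rpow_one] at hLH
  rw [pow_one] at hLε
  obtain ⟨hz3, hSSz⟩ := hSS H hH2
  set L := Real.log H with hLdef
  set z := ⌊L ^ E⌋₊ with hz
  have hjr : (1:ℝ) ≤ j := by exact_mod_cast hj
  have hL8 : 8 ≤ L := by linarith
  have hL0 : 0 < L := by linarith
  have hL1 : 1 ≤ L := by linarith
  have hLp0 : ∀ n : ℕ, 0 < L ^ n := fun n => by positivity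
  have hLp : ∀ n : ℕ, 1 ≤ L ^ n := fun n => one_le_pow₀ hL1
  have hLmono : ∀ m n : ℕ, m ≤ n → L ^ m ≤ L ^ n := fun m n h => pow_le_pow_right₀ hL1 h
  have hHr : (3:ℝ) ≤ H := by exact_mod_cast (by omega : 3 ≤ H)
  have hH0' : (0:ℝ) < H := by linarith
  have hzle : (z:ℝ) ≤ L ^ E := Nat.floor_le (by positivity)
  have hzr : (3:ℝ) ≤ z := by exact_mod_cast hz3
  set T : ℝ := L ^ (U + 6) with hT
  have hT2 : 2 ≤ T := by
    calc (2:ℝ) ≤ L ^ 1 := by rw [pow_one]; linarith
      _ ≤ T := hLmono _ _ (by omega)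
  have hT0 : 0 < T := by linarith
  set N := ⌊L ^ (U + 7)⌋₊ with hN
  set S : ℕ → Finset (Fin (j + 1) → ℤ) := fun i =>
    if (H : ℝ) ^ (ε / 2) ≤ gr T i ∧ (gr T i : ℝ) * L ^ B ≤ H then
      (bo j H).filter (fun c => (gr T i : ℝ) / L ^ (U + 3) ≤ er z (po j c) (gr T i)) else ∅ with hS
  set P := (bo j H).filter (fun c =>
      (∀ p : ℕ, p.Prime → p ≤ z → rho (po j c) p ≠ p) ∧
      ∃ K : ℕ, (H : ℝ) ^ ε ≤ K ∧ (K : ℝ) * L ^ B ≤ H ∧
        SS z (po j c) * la (po j c) K / L ^ U < er z (po j c) K) with hP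
  -- the covering
  have hcov : P ⊆ ((bo j H).filter (fun c => ∀ i, i ≠ 0 → c i = 0)) ∪
      (range (N + 1)).biUnion S := by
    intro f hf
    rw [hP, mem_filter] at hf
    obtain ⟨hfb, hadm, K, hK1, hK2, hK3⟩ := hf
    rw [mem_union]
    by_cases hcon : ∀ i, i ≠ 0 → f i = 0
    · left
      rw [mem_filter]
      exact ⟨hfb, hcon⟩
    · right
      have hdeg1 := po_pos_degree j f hcon
      have hdeg2 := po_natDegree j f
      -- size of `K`
      have hHε : L ^ 2 ≤ (H:ℝ) ^ ε := by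
        calc L ^ 2 = L * L := by ring
          _ ≤ (H:ℝ) ^ (ε / 2) * (H:ℝ) ^ (ε / 2) := by gcongr
          _ = (H:ℝ) ^ ε := by rw [← Real.rpow_add hH0']; congr 1; ring
      have hKL2 : L ^ 2 ≤ K := hHε.trans hK1
      have hKr1 : (1:ℝ) ≤ K := (hLp 2).trans hKL2
      have hK1n : 1 ≤ K := by exact_mod_cast hKr1
      have hK0 : (0:ℝ) < K := by linarith
      have hKH : (K:ℝ) ≤ H := by
        calc (K:ℝ) ≤ K * L ^ B := le_mul_of_one_le_right hK0.le (hLp _)
          _ ≤ H := hK2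
      have h6K : 6 * j ≤ K := by
        have h1 : (6 * (j:ℝ)) ≤ K := by
          refine le_trans ?_ hKL2
          nlinarith
        exact_mod_cast h1
      -- lower bound of the logarithmic sum
      have hla : K / (2 * ((j + 2) * L)) ≤ la (po j f) K := by
        refine la_lower (po j f) j hdeg1 hdeg2 K ((j + 2) * L) (by positivity) h6K ?_
        intro k hk1 hk2 hk3
        have h1 := po_eval_le j H K f hfb k hk1 hk2
        have h2 : (2:ℝ) ≤ |(((po j f).eval (k : ℤ) : ℤ) : ℝ)| := by exact_mod_cast hk3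
        have h3 : ((j:ℝ) + 1) * (H * (K:ℝ) ^ j) ≤ (H:ℝ) ^ (j + 2) := by
          have h4 : (j:ℝ) + 1 ≤ H := by exact_mod_cast (by omega : j + 1 ≤ H)
          calc ((j:ℝ) + 1) * (H * (K:ℝ) ^ j) ≤ H * (H * (H:ℝ) ^ j) := by gcongr
            _ = (H:ℝ) ^ (j + 2) := by ring
        calc Real.log |(((po j f).eval (k : ℤ) : ℤ) : ℝ)| ≤ Real.log ((H:ℝ) ^ (j + 2)) :=
              Real.log_le_log (by linarith) (h1.trans h3)
          _ = (j + 2) * L := by rw [Real.log_pow]; push_cast; ring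
      have hla2 : K / L ^ 2 ≤ la (po j f) K := by
        refine le_trans ?_ hla
        apply div_le_div_of_nonneg_left hK0.le (by positivity)
        nlinarith
      -- lower bound of the Euler product
      have hlogz : Real.log z ≤ E * Real.log L := by
        rw [← Real.log_pow]
        exact Real.log_le_log (by linarith) hzle
      have hlogz0 : 0 < Real.log z := Real.log_pos (by linarith)
      have h3 : 4 / L ≤ SS z (po j f) := by
        refine le_trans ?_ (hSSl z hz3 (po j f) hdeg2 hadm)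
        rw [div_le_div_iff₀ hL0 (by positivity)]
        calc 4 * Real.log z ^ (2 * j) ≤ 4 * (E * Real.log L) ^ (2 * j) := by gcongr
          _ = (E * Real.log L) ^ (2 * j) * 4 := by ring
          _ ≤ c * L := hll
      have hmainlow : 4 * K / L ^ (U + 3) ≤ SS z (po j f) * la (po j f) K / L ^ U := by
        calc 4 * K / L ^ (U + 3) = (4 / L) * (K / L ^ 2) / L ^ U := by
              rw [show U + 3 = U + 2 + 1 by ring, pow_succ, pow_add]
              field_simp
          _ ≤ _ := by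
              gcongr
              exact (hSSz (po j f)).1
      have herK : 4 * K / L ^ (U + 3) < er z (po j f) K := lt_of_le_of_lt hmainlow hK3
      -- the grid
      obtain ⟨g1, g2, g3⟩ := grid T hT2 K hK1n
      set i := ⌊T * Real.log K⌋₊ with hi
      have hiN : i ∈ range (N + 1) := by
        rw [mem_range]
        have h4 : T * Real.log K ≤ L ^ (U + 7) := by
          calc T * Real.log K ≤ T * L := by
                gcongr
                exact Real.log_le_log hK0 hKH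
            _ = L ^ (U + 7) := by rw [hT]; ring
        have h5 : i ≤ N := Nat.floor_le_floor h4
        omega
      have hgd := er_diff (hSSz (po j f)).1 (hSSz (po j f)).2 hL1 g1
      have hgd2 : 3 * L * ((K:ℝ) - gr T i) ≤ K / L ^ (U + 3) := by
        calc 3 * L * ((K:ℝ) - gr T i) ≤ 3 * L * (2 / T * K) := by gcongr
          _ = K / L ^ (U + 3) * (6 / L ^ 2) := by
              rw [hT, show U + 6 = (U + 3) + 2 + 1 by ring, pow_succ, pow_add L (U + 3) 2]
              field_simp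
              ring
          _ ≤ K / L ^ (U + 3) * 1 := by
              apply mul_le_mul_of_nonneg_left _ (by positivity)
              rw [div_le_one (by positivity)]
              nlinarith
          _ = _ := mul_one _
      have hgK : (gr T i : ℝ) ≤ K := by exact_mod_cast g1
      have hfin : (gr T i : ℝ) / L ^ (U + 3) ≤ er z (po j f) (gr T i) := by
        have h4 : (gr T i : ℝ) / L ^ (U + 3) ≤ K / L ^ (U + 3) := by gcongr
        have h5 : 4 * (K:ℝ) / L ^ (U + 3) = 4 * (K / L ^ (U + 3)) := by ring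
        have h6 : 0 ≤ (K:ℝ) / L ^ (U + 3) := by positivity
        linarith
      rw [mem_biUnion]
      refine ⟨i, hiN, ?_⟩
      rw [hS]
      simp only
      rw [if_pos]
      · rw [mem_filter]
        exact ⟨hfb, hfin⟩
      · constructor
        · have h4 : (H:ℝ) ^ ε = (H:ℝ) ^ (ε / 2) * (H:ℝ) ^ (ε / 2) := by
            rw [← Real.rpow_add hH0']; congr 1; ring
          have h5 : 2 * (H:ℝ) ^ (ε / 2) ≤ (H:ℝ) ^ ε := by
            rw [h4]
            have h6 : 0 < (H:ℝ) ^ (ε / 2) := Real.rpow_pos_of_pos hH0' _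
            nlinarith
          linarith
        · refine le_trans ?_ hK2
          gcongr
  -- sizes
  have hScard : ∀ i ∈ range (N + 1), ((S i).card : ℝ) ≤ ((bo j H).card : ℝ) / L ^ (2 * U + 11) := by
    intro i _
    rw [hS]
    simp only
    split_ifs with h
    · have h1 := hmean H hH1 (gr T i) h.1 h.2
      have hg0 : (0:ℝ) < gr T i := lt_of_lt_of_le (Real.rpow_pos_of_pos hH0' _) h.1
      set Q := (bo j H).filter (fun c => (gr T i : ℝ) / L ^ (U + 3) ≤ er z (po j c) (gr T i)) with hQ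
      have h2 : (Q.card : ℝ) * ((gr T i : ℝ) / L ^ (U + 3)) ≤
          ((bo j H).card : ℝ) * (gr T i) / L ^ (3 * U + 14) := by
        refine le_trans ?_ h1
        calc (Q.card : ℝ) * ((gr T i : ℝ) / L ^ (U + 3)) =
              ∑ c ∈ Q, (gr T i : ℝ) / L ^ (U + 3) := by rw [sum_const, nsmul_eq_mul]
          _ ≤ ∑ c ∈ Q, er z (po j c) (gr T i) :=
              sum_le_sum fun c hc => (mem_filter.mp hc).2
          _ ≤ _ := sum_le_sum_of_subset_of_nonneg (filter_subset _ _)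
              fun _ _ _ => er_nonneg _ _ _
      have h3 : ((bo j H).card : ℝ) * (gr T i) / L ^ (3 * U + 14) =
          (((bo j H).card : ℝ) / L ^ (2 * U + 11)) * ((gr T i : ℝ) / L ^ (U + 3)) := by
        rw [show 3 * U + 14 = (2 * U + 11) + (U + 3) by ring, pow_add]
        field_simp
      rw [h3] at h2
      exact le_of_mul_le_mul_right h2 (by positivity)
    · simp only [card_empty, Nat.cast_zero]
      positivity
  have hNle : ((N + 1 : ℕ) : ℝ) ≤ 2 * L ^ (U + 7) := by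
    have h1 : (N:ℝ) ≤ L ^ (U + 7) := Nat.floor_le (by positivity)
    push_cast
    have := hLp (U + 7)
    linarith
  have hbig : ((((range (N + 1)).biUnion S).card : ℕ) : ℝ) ≤
      ((bo j H).card : ℝ) / L ^ U * (2 / L ^ 4) := by
    have h1 : ((((range (N + 1)).biUnion S).card : ℕ) : ℝ) ≤ ∑ i ∈ range (N + 1), ((S i).card : ℝ) := by
      exact_mod_cast card_biUnion_le
    calc _ ≤ ∑ i ∈ range (N + 1), ((S i).card : ℝ) := h1
      _ ≤ ∑ i ∈ range (N + 1), ((bo j H).card : ℝ) / L ^ (2 * U + 11) := sum_le_sum hScard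
      _ = ((N + 1 : ℕ) : ℝ) * (((bo j H).card : ℝ) / L ^ (2 * U + 11)) := by
          rw [sum_const, card_range, nsmul_eq_mul]
      _ ≤ (2 * L ^ (U + 7)) * (((bo j H).card : ℝ) / L ^ (2 * U + 11)) := by gcongr
      _ = ((bo j H).card : ℝ) / L ^ U * (2 / L ^ 4) := by
          rw [show 2 * U + 11 = (U + 7) + (U + 4) by ring, pow_add L (U + 7) (U + 4),
            pow_add L U 4]
          have e7 : L ^ (U + 7) ≠ 0 := (hLp0 _).ne'
          field_simp
  have hconst : ((((bo j H).filter (fun c => ∀ i, i ≠ 0 → c i = 0)).card : ℕ) : ℝ) ≤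
      ((bo j H).card : ℝ) / L ^ U * (1 / L ^ 2) := by
    have h1 := const_card j H
    have h2 : ((((bo j H).filter (fun c => ∀ i, i ≠ 0 → c i = 0)).card : ℕ) : ℝ) ≤ 2 * H + 1 := by
      exact_mod_cast h1
    refine h2.trans ?_
    rw [bo_card]
    push_cast
    set W : ℝ := 2 * (H:ℝ) + 1 with hW
    have hW1 : 1 ≤ W := by linarith
    have h3 : W / L ^ U * (1 / L ^ 2) * L ^ (U + 2) = W := by
      rw [pow_add]
      field_simp
    calc W = (W / L ^ U * (1 / L ^ 2)) * L ^ (U + 2) := h3.symm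
      _ ≤ (W / L ^ U * (1 / L ^ 2)) * W := by
          apply mul_le_mul_of_nonneg_left _ (by positivity)
          linarith
      _ = W ^ 2 / L ^ U * (1 / L ^ 2) := by ring
      _ ≤ W ^ (j + 1) / L ^ U * (1 / L ^ 2) := by
          gcongr
          omega
  have hPc : (P.card : ℝ) ≤ ((bo j H).card : ℝ) / L ^ U * (1 / L ^ 2) +
      ((bo j H).card : ℝ) / L ^ U * (2 / L ^ 4) := by
    have h1 : P.card ≤ ((bo j H).filter (fun c => ∀ i, i ≠ 0 → c i = 0)).card +
        ((range (N + 1)).biUnion S).card := (card_le_card hcov).trans (card_union_le _ _)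
    have h2 : (P.card : ℝ) ≤ (((bo j H).filter (fun c => ∀ i, i ≠ 0 → c i = 0)).card : ℝ) +
        (((range (N + 1)).biUnion S).card : ℝ) := by exact_mod_cast h1
    linarith
  refine hPc.trans ?_
  have hX : 0 ≤ ((bo j H).card : ℝ) / L ^ U := by positivity
  have h1 : 1 / L ^ 2 ≤ 1 / 8 := one_div_le_one_div_of_le (by norm_num) (by nlinarith)
  have h2 : 2 / L ^ 4 ≤ 2 / 8 := div_le_div_of_nonneg_left (by norm_num) (by norm_num) (by
    calc (8:ℝ) ≤ L ^ 1 := by rw [pow_one]; exact hL8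
      _ ≤ L ^ 4 := hLmono _ _ (by norm_num))
  nlinarith

end Pool.Agent.H101R3.FullAbs
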