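import Pool.Agent.H101R3.FullAbs

/-!
Bateman-Horn on average over all polynomials of height at most `H`: absolute values, both signs.
-/

namespace Pool.Agent.H101R3.FullAbs

open Finset Polynomial Filter
open Pool.Agent.H442R2.EHI (evt_log_pow evt_log_ge)
open Pool.Agent.H300R2.BH Pool.Agent.H300R2.FB

lemma Rr_eval (j : ℕ) (r : Fin (j - 1) → ℤ) (k : ℕ) :
    (Rr j r).eval (k : ℤ) = ∑ i : Fin (j - 1), r i * (k : ℤ) ^ ((i : ℕ) + 1) := by
  unfold Rr
  rw [eval_finset_sum]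
  refine sum_congr rfl fun i _ => ?_
  simp [eval_mul, eval_pow]

/-- values of the polynomials with a large leading coefficient are nonnegative -/
lemma FP_nonneg (j : ℕ) (hj : 1 ≤ j) (H : ℕ) (r : Fin (j - 1) → ℤ) (hr : r ∈ bx j (fun _ => H))
    (a d k : ℕ) (ha : 1 ≤ a) (hk : 1 ≤ k) (hdk : (j : ℝ) * H ≤ d * k) :
    0 ≤ (FP j H r a d).eval (k : ℤ) := by
  have hk1 : (1:ℝ) ≤ k := by exact_mod_cast hk
  have hH0 : (0:ℝ) ≤ H := Nat.cast_nonneg _
  have hF : (((FP j H r a d).eval (k : ℤ) : ℤ) : ℝ) =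
      ((a : ℝ) - H - 1) + ∑ i : Fin (j - 1), (r i : ℝ) * (k : ℝ) ^ ((i : ℕ) + 1) +
      d * (k : ℝ) ^ j := by
    unfold FP
    rw [FF_eval, eval_add, eval_add, eval_C, eval_zero, Rr_eval]
    push_cast
    ring
  have hkj : (1:ℝ) ≤ (k:ℝ) ^ (j - 1) := one_le_pow₀ hk1
  have h1 : -((j - 1 : ℕ) * (H * (k:ℝ) ^ (j - 1))) ≤
      ∑ i : Fin (j - 1), (r i : ℝ) * (k : ℝ) ^ ((i : ℕ) + 1) := by
    have h2 : ∑ i : Fin (j - 1), (-(H * (k:ℝ) ^ (j - 1))) ≤
        ∑ i : Fin (j - 1), (r i : ℝ) * (k : ℝ) ^ ((i : ℕ) + 1) := by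
      refine sum_le_sum fun i _ => ?_
      unfold bx at hr
      rw [Fintype.mem_piFinset] at hr
      have h3 := hr i
      rw [mem_Icc] at h3
      have h4 : -(H:ℝ) ≤ (r i : ℝ) := by exact_mod_cast h3.1
      have h5 : (k : ℝ) ^ ((i : ℕ) + 1) ≤ (k:ℝ) ^ (j - 1) :=
        pow_le_pow_right₀ hk1 (by have := i.2; omega)
      have h6 : (0:ℝ) ≤ (k : ℝ) ^ ((i : ℕ) + 1) := by positivity
      calc -(H * (k:ℝ) ^ (j - 1)) ≤ -(H * (k : ℝ) ^ ((i : ℕ) + 1)) := by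
            have := mul_le_mul_of_nonneg_left h5 hH0
            linarith
        _ = (-(H:ℝ)) * (k : ℝ) ^ ((i : ℕ) + 1) := by ring
        _ ≤ _ := mul_le_mul_of_nonneg_right h4 h6
    rw [sum_const, card_univ, Fintype.card_fin, nsmul_eq_mul] at h2
    linarith
  have h7 : (j : ℝ) * (H * (k:ℝ) ^ (j - 1)) ≤ d * (k:ℝ) ^ j := by
    calc (j : ℝ) * (H * (k:ℝ) ^ (j - 1)) = (j * H) * (k:ℝ) ^ (j - 1) := by ring
      _ ≤ (d * k) * (k:ℝ) ^ (j - 1) := by gcongr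
      _ = d * (k:ℝ) ^ j := by
          conv_rhs => rw [show j = (j - 1) + 1 by omega]
          ring
  have h8 : ((j - 1 : ℕ) : ℝ) = j - 1 := by
    rw [Nat.cast_sub hj]; simp
  have h9 : (H:ℝ) ≤ H * (k:ℝ) ^ (j - 1) := le_mul_of_one_le_right hH0 hkj
  have ha1 : (1:ℝ) ≤ a := by exact_mod_cast ha
  have key : (0:ℝ) ≤ (((FP j H r a d).eval (k : ℤ) : ℤ) : ℝ) := by
    rw [hF]
    rw [h8] at h1
    nlinarith
  exact_mod_cast key

/-- the mean value over the polynomials with positive leading coefficient, absolute values -/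
theorem mean_abs (j : ℕ) (hj : 1 ≤ j) (ε : ℝ) (hε : 0 < ε) (U : ℕ) : ∃ E1 : ℕ, ∀ E : ℕ, E1 ≤ E →
    ∃ B H0 : ℕ, ∀ H : ℕ, H0 ≤ H → ∀ K : ℕ, (H : ℝ) ^ ε ≤ K → (K : ℝ) * Real.log H ^ B ≤ H →
    ∑ r ∈ bx j (fun _ => H), ∑ a ∈ Ioc 0 (0 + (2 * H + 1)), ∑ d ∈ Ioc 0 H,
      er ⌊Real.log H ^ E⌋₊ (FP j H r a d) K ≤
      ((bx j (fun _ => H)).card : ℝ) * ((2 * H + 1 : ℕ) : ℝ) * H * K / Real.log H ^ U := by
  classical
  obtain ⟨E1, hE1⟩ := mean_full j hj ε hε (U + 2)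
  refine ⟨E1 + 1, fun E hE => ?_⟩
  obtain ⟨B, H1, hmean⟩ := hE1 E (by omega)
  obtain ⟨H2, hSS⟩ := SS_small (E - 1)
  rw [show E - 1 + 1 = E by omega] at hSS
  have hev : ∀ᶠ H : ℕ in atTop, H1 ≤ H ∧ H2 ≤ H ∧ 8 + (j:ℝ) ≤ Real.log H ∧
      Real.log H ^ (2 * U + 8) ≤ (H:ℝ) ^ ε ∧ 1 ≤ H := by
    filter_upwards [eventually_ge_atTop H1, eventually_ge_atTop H2, evt_log_ge (8 + (j:ℝ)),
      evt_log_pow (2 * U + 8) ε hε, eventually_ge_atTop 1] with H h1 h2 h3 h4 h5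
    exact ⟨h1, h2, h3, h4, h5⟩
  obtain ⟨H0, hH0⟩ := eventually_atTop.mp hev
  refine ⟨B, H0, fun H hH K hK hKH => ?_⟩
  obtain ⟨hH1, hH2, hLj, hLε, hHn⟩ := hH0 H hH
  have hm := hmean H hH1 K hK hKH
  obtain ⟨-, hSSz⟩ := hSS H hH2
  set L := Real.log H with hLdef
  set z := ⌊L ^ E⌋₊ with hz
  have hjr : (1:ℝ) ≤ j := by exact_mod_cast hj
  have hL8 : 8 ≤ L := by linarith
  have hL0 : 0 < L := by linarith
  have hL1 : 1 ≤ L := by linarith
  have hLp0 : ∀ n : ℕ, 0 < L ^ n := fun n => by positivity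
  have hLp : ∀ n : ℕ, 1 ≤ L ^ n := fun n => one_le_pow₀ hL1
  have hHr : (1:ℝ) ≤ H := by exact_mod_cast hHn
  have hH0' : (0:ℝ) < H := by linarith
  have hLK : L ^ (2 * U + 8) ≤ K := hLε.trans hK
  have hK0 : (0:ℝ) < K := lt_of_lt_of_le (hLp0 _) hLK
  set K1 := ⌊(K:ℝ) / L ^ (U + 4)⌋₊ with hK1
  have hK1le : (K1:ℝ) ≤ K / L ^ (U + 4) := Nat.floor_le (by positivity)
  have hK1n : (0:ℝ) ≤ K1 := Nat.cast_nonneg _
  -- pointwise bound
  have hpt : ∀ r ∈ bx j (fun _ => H), ∀ a ∈ Ioc 0 (0 + (2 * H + 1)), ∀ d ∈ Ioc 0 H,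
      er z (FP j H r a d) K ≤
      |pv (FP j H r a d) K - SS z (FP j H r a d) * lF (FP j H r a d) K| + 3 * K / L ^ (U + 3) +
      (if (d:ℝ) < H / L ^ (U + 3) then 3 * L * K else 0) := by
    intro r hr a ha d hd
    obtain ⟨s1, s2⟩ := hSSz (FP j H r a d)
    rw [mem_Ioc] at ha hd
    split_ifs with hdM
    · have h1 := er_trivial (F := FP j H r a d) s1 s2 hL1 K
      have h2 := abs_nonneg (pv (FP j H r a d) K - SS z (FP j H r a d) * lF (FP j H r a d) K)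
      have h3 : 0 ≤ 3 * (K:ℝ) / L ^ (U + 3) := by positivity
      linarith
    · push Not at hdM
      have hpos : ∀ k : ℕ, K1 < k → k ≤ K → 0 ≤ (FP j H r a d).eval (k : ℤ) := by
        intro k hk1 hkK
        have h9 : (K:ℝ) / L ^ (U + 4) < k := by
          have h10 : (K:ℝ) / L ^ (U + 4) < K1 + 1 := Nat.lt_floor_add_one _
          have h11 : (K1:ℝ) + 1 ≤ k := by exact_mod_cast hk1
          linarith
        refine FP_nonneg j hj H r hr a d k (by omega) (by omega) ?_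
        have h12 : L ^ (2 * U + 8) / L ^ (U + 4) ≤ k :=
          le_trans (div_le_div_of_nonneg_right hLK (hLp0 _).le) h9.le
        have h13 : L ^ (2 * U + 8) / L ^ (U + 4) = L ^ (U + 4) := by
          rw [show 2 * U + 8 = (U + 4) + (U + 4) by ring, pow_add]
          field_simp
        rw [h13] at h12
        have h14 : (j:ℝ) * L ^ (U + 3) ≤ k := by
          refine le_trans ?_ h12
          rw [pow_succ L (U + 3), mul_comm]
          exact mul_le_mul_of_nonneg_left (by linarith) (hLp0 _).le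
        calc (j:ℝ) * H = (H / L ^ (U + 3)) * (j * L ^ (U + 3)) := by field_simp
          _ ≤ d * k := by gcongr
      obtain ⟨c1, c2, c3⟩ := abs_conv (FP j H r a d) K K1 hpos
      have e1 : pa (FP j H r a d) K - SS z (FP j H r a d) * la (FP j H r a d) K =
          (pa (FP j H r a d) K - pv (FP j H r a d) K) +
          (pv (FP j H r a d) K - SS z (FP j H r a d) * lF (FP j H r a d) K) +
          (-(SS z (FP j H r a d) * (la (FP j H r a d) K - lF (FP j H r a d) K))) := by ring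
      unfold er
      rw [e1]
      have h0 := abs_add_le ((pa (FP j H r a d) K - pv (FP j H r a d) K) +
          (pv (FP j H r a d) K - SS z (FP j H r a d) * lF (FP j H r a d) K))
          (-(SS z (FP j H r a d) * (la (FP j H r a d) K - lF (FP j H r a d) K)))
      have h1 := abs_add_le (pa (FP j H r a d) K - pv (FP j H r a d) K)
        (pv (FP j H r a d) K - SS z (FP j H r a d) * lF (FP j H r a d) K)
      have h2 : |-(SS z (FP j H r a d) * (la (FP j H r a d) K - lF (FP j H r a d) K))| ≤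
          L * (2 * K1) := by
        rw [abs_neg, abs_of_nonneg (mul_nonneg s1 c2)]
        exact mul_le_mul s2 c3 c2 hL0.le
      have h3 : (K1:ℝ) + L * (2 * K1) ≤ 3 * K / L ^ (U + 3) := by
        calc (K1:ℝ) + L * (2 * K1) ≤ L * K1 + L * (2 * K1) := by
              have := le_mul_of_one_le_left hK1n hL1
              linarith
          _ = 3 * L * K1 := by ring
          _ ≤ 3 * L * (K / L ^ (U + 4)) := by gcongr
          _ = 3 * K / L ^ (U + 3) := by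
              rw [show U + 4 = U + 3 + 1 by ring, pow_succ]
              field_simp
      linarith
  set bc : ℝ := ((bx j (fun _ => H)).card : ℝ) with hbc
  have hbc0 : 0 ≤ bc := Nat.cast_nonneg _
  have hAc : ((Ioc 0 (0 + (2 * H + 1))).card : ℝ) = ((2 * H + 1 : ℕ) : ℝ) := by
    rw [Nat.card_Ioc]; simp
  set AH : ℝ := ((2 * H + 1 : ℕ) : ℝ) with hAH
  have hAH0 : 0 ≤ AH := Nat.cast_nonneg _
  have hsmall : ∑ d ∈ Ioc 0 H, (if (d:ℝ) < H / L ^ (U + 3) then 3 * L * (K:ℝ) else 0) ≤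
      H * (3 * K / L ^ (U + 2)) := by
    rw [← sum_filter, sum_const, nsmul_eq_mul]
    have h1 : (((Ioc 0 H).filter (fun d : ℕ => (d:ℝ) < H / L ^ (U + 3))).card : ℝ) ≤
        H / L ^ (U + 3) := by
      have h2 : (Ioc 0 H).filter (fun d : ℕ => (d:ℝ) < H / L ^ (U + 3)) ⊆
          Ioc 0 ⌊(H:ℝ) / L ^ (U + 3)⌋₊ := by
        intro d hd
        rw [mem_filter, mem_Ioc] at hd
        rw [mem_Ioc]
        exact ⟨hd.1.1, Nat.le_floor hd.2.le⟩
      have h3 := card_le_card h2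
      rw [Nat.card_Ioc, Nat.sub_zero] at h3
      have h4 : (⌊(H:ℝ) / L ^ (U + 3)⌋₊ : ℝ) ≤ H / L ^ (U + 3) := Nat.floor_le (by positivity)
      refine le_trans ?_ h4
      exact_mod_cast h3
    calc _ ≤ (H / L ^ (U + 3)) * (3 * L * K) := by gcongr
      _ = H * (3 * K / L ^ (U + 2)) := by
          rw [show U + 3 = U + 2 + 1 by ring, pow_succ]
          field_simp
  calc _ ≤ ∑ r ∈ bx j (fun _ => H), ∑ a ∈ Ioc 0 (0 + (2 * H + 1)), ∑ d ∈ Ioc 0 H,
        (|pv (FP j H r a d) K - SS z (FP j H r a d) * lF (FP j H r a d) K| +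
          3 * K / L ^ (U + 3) + (if (d:ℝ) < H / L ^ (U + 3) then 3 * L * K else 0)) :=
        sum_le_sum fun r hr => sum_le_sum fun a ha => sum_le_sum fun d hd => hpt r hr a ha d hd
    _ = (∑ r ∈ bx j (fun _ => H), ∑ a ∈ Ioc 0 (0 + (2 * H + 1)), ∑ d ∈ Ioc 0 H,
        |pv (FP j H r a d) K - SS z (FP j H r a d) * lF (FP j H r a d) K|) +
        bc * (AH * (H * (3 * K / L ^ (U + 3)))) +
        bc * (AH * ∑ d ∈ Ioc 0 H, (if (d:ℝ) < H / L ^ (U + 3) then 3 * L * (K:ℝ) else 0)) := by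
        simp only [sum_add_distrib, sum_const, nsmul_eq_mul, hAc]
        rw [Nat.card_Ioc, Nat.sub_zero]
    _ ≤ bc * AH * H * K / L ^ (U + 2) + bc * (AH * (H * (3 * K / L ^ (U + 3)))) +
        bc * (AH * (H * (3 * K / L ^ (U + 2)))) := by gcongr
    _ = (bc * AH * H * K / L ^ U) * (4 / L ^ 2 + 3 / L ^ 3) := by
        rw [pow_add, pow_add]
        field_simp
        ring
    _ ≤ (bc * AH * H * K / L ^ U) * 1 := by
        apply mul_le_mul_of_nonneg_left _ (by positivity)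
        have h1 : 4 / L ^ 2 ≤ 4 / 8 := div_le_div_of_nonneg_left (by norm_num) (by norm_num) (by nlinarith)
        have h2 : 3 / L ^ 3 ≤ 3 / 8 := div_le_div_of_nonneg_left (by norm_num) (by norm_num) (by
          calc (8:ℝ) ≤ L := hL8
            _ = L ^ 1 := (pow_one L).symm
            _ ≤ L ^ 3 := pow_le_pow_right₀ hL1 (by norm_num))
        linarith
    _ = _ := mul_one _

/-- **Bateman-Horn on average over all polynomials of height at most `H`.** -/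
theorem mean_box (j : ℕ) (hj : 1 ≤ j) (ε : ℝ) (hε : 0 < ε) (U : ℕ) : ∃ E1 : ℕ, ∀ E : ℕ, E1 ≤ E →
    ∃ B H0 : ℕ, ∀ H : ℕ, H0 ≤ H → ∀ K : ℕ, (H : ℝ) ^ ε ≤ K → (K : ℝ) * Real.log H ^ B ≤ H →
    ∑ c ∈ bo j H, er ⌊Real.log H ^ E⌋₊ (po j c) K ≤
      ((bo j H).card : ℝ) * K / Real.log H ^ U := by
  classical
  obtain ⟨m, rfl⟩ : ∃ m, j = m + 1 := ⟨j - 1, by omega⟩
  obtain ⟨E1, hE1⟩ := mean_abs (m + 1) hj ε hε (U + 1)
  refine ⟨E1 + 1, fun E hE => ?_⟩
  obtain ⟨B, H1, hmean⟩ := hE1 E (by omega)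
  obtain ⟨H2, hSS⟩ := SS_small (E - 1)
  rw [show E - 1 + 1 = E by omega] at hSS
  have hev : ∀ᶠ H : ℕ in atTop, H1 ≤ H ∧ H2 ≤ H ∧ 8 ≤ Real.log H ∧
      Real.log H ^ (U + 2) ≤ (H:ℝ) ^ (1:ℝ) ∧ 1 ≤ H := by
    filter_upwards [eventually_ge_atTop H1, eventually_ge_atTop H2, evt_log_ge 8,
      evt_log_pow (U + 2) 1 (by norm_num), eventually_ge_atTop 1] with H h1 h2 h3 h4 h5
    exact ⟨h1, h2, h3, h4, h5⟩
  obtain ⟨H0, hH0⟩ := eventually_atTop.mp hev
  refine ⟨B, H0, fun H hH K hK hKH => ?_⟩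
  obtain ⟨hH1, hH2, hL8, hLH, hHn⟩ := hH0 H hH
  rw [Real.rpow_one] at hLH
  have hm := hmean H hH1 K hK hKH
  obtain ⟨-, hSSz⟩ := hSS H hH2
  set L := Real.log H with hLdef
  set z := ⌊L ^ E⌋₊ with hz
  have hL0 : 0 < L := by linarith
  have hL1 : 1 ≤ L := by linarith
  have hLp0 : ∀ n : ℕ, 0 < L ^ n := fun n => by positivity
  have hHr : (1:ℝ) ≤ H := by exact_mod_cast hHn
  have hKn : (0:ℝ) ≤ K := Nat.cast_nonneg _
  have h1 := sum_box_le m H (fun c => er z (po (m + 1) c) K) (fun c => er_nonneg _ _ _)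
    (fun c => by rw [po_neg, er_neg]) (3 * L * K)
    (fun c _ => er_trivial (hSSz _).1 (hSSz _).2 hL1 K) (by positivity)
  refine h1.trans ?_
  rw [sum_pos_box m H (fun c => er z (po (m + 1) c) K)]
  simp only [po_eq]
  rw [bx_card] at hm
  rw [bo_card]
  push_cast at hm ⊢
  set W : ℝ := 2 * (H:ℝ) + 1 with hW
  have hW0 : 0 < W := by positivity
  calc _ ≤ 2 * (W ^ m * W * H * K / L ^ (U + 1)) + W ^ (m + 1) * (3 * L * K) := by gcongr
    _ = (W ^ (m + 1 + 1) * K / L ^ U) * ((2 * H) / W / L + 3 * L ^ (U + 1) / W) := by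
        rw [pow_succ W (m + 1), pow_succ W m, pow_succ L U]
        field_simp
    _ ≤ (W ^ (m + 1 + 1) * K / L ^ U) * 1 := by
        apply mul_le_mul_of_nonneg_left _ (by positivity)
        have h2 : (2 * (H:ℝ)) / W / L ≤ 1 / 8 := by
          have h3 : (2 * (H:ℝ)) / W ≤ 1 := by
            rw [div_le_one hW0]; linarith
          have h4 : 0 ≤ (2 * (H:ℝ)) / W := by positivity
          calc (2 * (H:ℝ)) / W / L ≤ 1 / L := by gcongr
            _ ≤ 1 / 8 := by gcongr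
        have h5 : 3 * L ^ (U + 1) / W ≤ 3 / 8 := by
          rw [div_le_div_iff₀ hW0 (by norm_num)]
          have h6 : L ^ (U + 1) * 8 ≤ L ^ (U + 2) := by
            rw [show U + 2 = U + 1 + 1 by ring, pow_succ L (U + 1)]
            gcongr
          have h7 : (H:ℝ) ≤ W := by linarith
          nlinarith
        linarith
    _ = _ := mul_one _

end Pool.Agent.H101R3.FullAbs
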