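import Mathlib

/-!
# A one-orbit metrizable G-space that is not G-Tychonoff

Answer (negative) to the question of Furstenberg and Scarr: there are a metrizable topological
group `G` and a metrizable space `X` with a jointly continuous one-orbit action of `G` on `X` such
that `X` has no equivariant topological embedding into a compact Hausdorff `G`-space.

Construction.  `X` is the space of finitely supported real sequences with the sup metric.
`G` is the group of finitely supported sequences of order automorphisms of the real line, acting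
coordinatewise; a neighbourhood base of the identity is given by the subgroups `V k` of those
sequences which are trivial in the coordinates below `k` and all of whose coordinates fix every
`t ≤ 0` and every `(1/2)^j`.
-/

set_option autoImplicit false

namespace Pool.Agent.H101R3.OneOrbit

open Topology Filter Set

noncomputable section

/-! ## A piecewise linear automorphism -/

/-- piecewise linear function with `p ↦ p`, `b ↦ b'`, `q ↦ q`, identity outside `[p,q]` -/
def pl (p b b' q t : ℝ) : ℝ :=
  if t ≤ p then t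
  else if t ≤ b then p + (t - p) * ((b' - p) / (b - p))
  else if t ≤ q then q - (q - t) * ((q - b') / (q - b))
  else t

theorem pl_right_inv {p b b' q : ℝ} (h1 : p < b) (h2 : b < q) (h3 : p < b') (h4 : b' < q) (t : ℝ) :
    pl p b b' q (pl p b' b q t) = t := by
  have e1 : 0 < b - p := by linarith
  have e2 : 0 < q - b := by linarith
  have e3 : 0 < b' - p := by linarith
  have e4 : 0 < q - b' := by linarith
  unfold pl
  by_cases c1 : t ≤ p
  · simp [c1]
  · push Not at c1
    have hm1 : 0 < (b - p) / (b' - p) := by positivity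
    have hm2 : 0 < (q - b) / (q - b') := by positivity
    by_cases c2 : t ≤ b'
    · simp only [not_le.2 c1, c2, if_true, if_false]
      have k1 : ¬ (p + (t - p) * ((b - p) / (b' - p)) ≤ p) := by
        have : 0 < (t - p) * ((b - p) / (b' - p)) := mul_pos (by linarith) hm1
        linarith
      have k2 : p + (t - p) * ((b - p) / (b' - p)) ≤ b := by
        have : (t - p) * ((b - p) / (b' - p)) ≤ (b' - p) * ((b - p) / (b' - p)) :=
          mul_le_mul_of_nonneg_right (by linarith) hm1.le
        have h5 : (b' - p) * ((b - p) / (b' - p)) = b - p := by field_simp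
        linarith
      simp only [k1, k2, if_true, if_false]
      field_simp
      ring
    · push Not at c2
      by_cases c3 : t ≤ q
      · simp only [not_le.2 c1, not_le.2 c2, c3, if_true, if_false]
        have h5 : (q - t) * ((q - b) / (q - b')) < q - b := by
          have : (q - t) * ((q - b) / (q - b')) < (q - b') * ((q - b) / (q - b')) :=
            mul_lt_mul_of_pos_right (by linarith) hm2
          have h5 : (q - b') * ((q - b) / (q - b')) = q - b := by field_simp
          linarith
        have h6 : 0 ≤ (q - t) * ((q - b) / (q - b')) := mul_nonneg (by linarith) hm2.le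
        have k1 : ¬ (q - (q - t) * ((q - b) / (q - b')) ≤ p) := by
          push Not; linarith
        have k2 : ¬ (q - (q - t) * ((q - b) / (q - b')) ≤ b) := by
          push Not; linarith
        have k3 : q - (q - t) * ((q - b) / (q - b')) ≤ q := by linarith
        simp only [k1, k2, k3, if_true, if_false]
        field_simp
        ring
      · push Not at c3
        have k1 : ¬ t ≤ p := not_le.2 c1
        have k2 : ¬ t ≤ b' := not_le.2 c2
        have k3 : ¬ t ≤ q := not_le.2 c3
        have k4 : ¬ t ≤ b := by push Not; linarith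
        simp only [k1, k2, k3, k4, if_false]

theorem pl_strictMono {p b b' q : ℝ} (h1 : p < b) (h2 : b < q) (h3 : p < b') (h4 : b' < q) :
    StrictMono (pl p b b' q) := by
  have e1 : 0 < b - p := by linarith
  have e2 : 0 < q - b := by linarith
  have e3 : 0 < b' - p := by linarith
  have e4 : 0 < q - b' := by linarith
  have hm1 : 0 < (b' - p) / (b - p) := by positivity
  have hm2 : 0 < (q - b') / (q - b) := by positivity
  set m1 := (b' - p) / (b - p) with hm1d
  set m2 := (q - b') / (q - b) with hm2d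
  have hb1 : (b - p) * m1 = b' - p := by rw [hm1d]; field_simp
  have hb2 : (q - b) * m2 = q - b' := by rw [hm2d]; field_simp
  intro t u htu
  unfold pl
  rw [← hm1d, ← hm2d]
  split_ifs with a1 a2 a3 a4 a5 a6 a7 a8 a9 a10 a11 a12 a13 a14 a15
  all_goals first
    | linarith
    | (push Not at *; nlinarith)

theorem exists_iso {p b b' q : ℝ} (h1 : p < b) (h2 : b < q) (h3 : p < b') (h4 : b' < q) :
    ∃ h : ℝ ≃o ℝ, h b = b' ∧ ∀ t, (t ≤ p ∨ q ≤ t) → h t = t := by
  refine ⟨(pl_strictMono h1 h2 h3 h4).orderIsoOfRightInverse _ (pl p b' b q)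
    (fun t => pl_right_inv h1 h2 h3 h4 t), ?_, ?_⟩
  · change pl p b b' q b = b'
    unfold pl
    have e1 : b - p ≠ 0 := by linarith
    simp only [not_le.2 h1, le_refl, if_true, if_false]
    field_simp
    ring
  · intro t ht
    change pl p b b' q t = t
    unfold pl
    rcases ht with ht | ht
    · simp [ht]
    · rcases eq_or_lt_of_le ht with rfl | ht'
      · simp [not_le.2 h2, not_le.2 (h1.trans h2)]
      · simp [not_le.2 ht', not_le.2 (h2.trans ht'), not_le.2 ((h1.trans h2).trans ht')]

/-! ## The group -/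

/-- the group of finitely supported sequences of order automorphisms of the real line -/
def Gam : Subgroup (ℕ → (ℝ ≃o ℝ)) where
  carrier := {g | ∃ N, ∀ n, N ≤ n → g n = 1}
  mul_mem' := by
    rintro a b ⟨N, hN⟩ ⟨M, hM⟩
    exact ⟨max N M, fun n hn => by
      simp [hN n (le_trans (le_max_left _ _) hn), hM n (le_trans (le_max_right _ _) hn)]⟩
  one_mem' := ⟨0, fun n _ => rfl⟩
  inv_mem' := by
    rintro a ⟨N, hN⟩
    exact ⟨N, fun n hn => by simp [hN n hn]⟩

/-- order automorphisms of the line fixing every `t ≤ 0` and every `(1/2)^j` -/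
def W : Subgroup (ℝ ≃o ℝ) where
  carrier := {h | (∀ t : ℝ, t ≤ 0 → h t = t) ∧ ∀ j : ℕ, h ((1 / 2 : ℝ) ^ j) = (1 / 2 : ℝ) ^ j}
  mul_mem' := by
    rintro a b ⟨ha, ha'⟩ ⟨hb, hb'⟩
    refine ⟨fun t ht => ?_, fun j => ?_⟩
    · rw [RelIso.mul_apply, hb t ht, ha t ht]
    · rw [RelIso.mul_apply, hb' j, ha' j]
  one_mem' := ⟨fun t _ => rfl, fun j => rfl⟩
  inv_mem' := by
    rintro a ⟨ha, ha'⟩
    refine ⟨fun t ht => ?_, fun j => ?_⟩
    · conv_lhs => rw [← ha t ht]
      exact RelIso.inv_apply_self _ _
    · conv_lhs => rw [← ha' j]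
      exact RelIso.inv_apply_self _ _

/-- the basic open subgroups -/
def V (k : ℕ) : Subgroup Gam where
  carrier := {g | (∀ n, n < k → g.1 n = 1) ∧ ∀ n, g.1 n ∈ W}
  mul_mem' := by
    rintro a b ⟨ha, ha'⟩ ⟨hb, hb'⟩
    refine ⟨fun n hn => ?_, fun n => ?_⟩
    · simp [ha n hn, hb n hn]
    · exact W.mul_mem (ha' n) (hb' n)
  one_mem' := ⟨fun n _ => rfl, fun n => W.one_mem⟩
  inv_mem' := by
    rintro a ⟨ha, ha'⟩
    refine ⟨fun n hn => ?_, fun n => ?_⟩
    · simp [ha n hn]
    · exact W.inv_mem (ha' n)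

theorem V_anti {k l : ℕ} (h : k ≤ l) : V l ≤ V k :=
  fun _ hg => ⟨fun n hn => hg.1 n (lt_of_lt_of_le hn h), hg.2⟩

/-- the group topology -/
@[instance_reducible]
def basis : GroupFilterBasis Gam where
  sets := {U | ∃ k, U = (V k : Set Gam)}
  nonempty := ⟨_, 0, rfl⟩
  inter_sets := by
    rintro _ _ ⟨k, rfl⟩ ⟨l, rfl⟩
    exact ⟨_, ⟨max k l, rfl⟩, fun g hg => ⟨V_anti (le_max_left _ _) hg, V_anti (le_max_right _ _) hg⟩⟩
  one' := by
    rintro _ ⟨k, rfl⟩
    exact (V k).one_mem
  mul' := by
    rintro _ ⟨k, rfl⟩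
    refine ⟨_, ⟨k, rfl⟩, ?_⟩
    rintro _ ⟨a, ha, b, hb, rfl⟩
    exact (V k).mul_mem ha hb
  inv' := by
    rintro _ ⟨k, rfl⟩
    exact ⟨_, ⟨k, rfl⟩, fun g hg => (V k).inv_mem hg⟩
  conj' := by
    rintro x _ ⟨k, rfl⟩
    obtain ⟨N, hN⟩ := x.2
    refine ⟨_, ⟨max k N, rfl⟩, fun g hg => ?_⟩
    have key : x * g * x⁻¹ = g := by
      apply Subtype.ext
      funext n
      change x.1 n * g.1 n * (x.1 n)⁻¹ = g.1 n
      rcases lt_or_ge n (max k N) with h | h
      · simp [hg.1 n h]
      · rw [hN n (le_trans (le_max_right _ _) h)]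
        simp
    change x * g * x⁻¹ ∈ V k
    rw [key]
    exact V_anti (le_max_left _ _) hg

instance topG : TopologicalSpace Gam := basis.topology

instance : IsTopologicalGroup Gam := basis.isTopologicalGroup

theorem nhds_one_basis : (𝓝 (1 : Gam)).HasBasis (fun _ : ℕ => True) (fun k => (V k : Set Gam)) := by
  refine basis.nhds_one_hasBasis.to_hasBasis ?_ ?_
  · rintro _ ⟨k, rfl⟩
    exact ⟨k, trivial, subset_rfl⟩
  · rintro k -
    exact ⟨_, ⟨k, rfl⟩, subset_rfl⟩

instance : T2Space Gam := by
  refine (basis.t2Space_iff_sInter_subset rfl).2 ?_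
  intro g hg
  rw [mem_singleton_iff]
  apply Subtype.ext
  funext n
  have := hg (V (n + 1) : Set Gam) ⟨n + 1, rfl⟩
  exact this.1 n (Nat.lt_succ_self n)

instance : (𝓝 (1 : Gam)).IsCountablyGenerated := nhds_one_basis.isCountablyGenerated

instance : TopologicalSpace.MetrizableSpace Gam := by
  let _ : UniformSpace Gam := IsTopologicalGroup.rightUniformSpace Gam
  have : (uniformity Gam).IsCountablyGenerated := by
    change (comap (fun p : Gam × Gam => p.2 * p.1⁻¹) (𝓝 1)).IsCountablyGenerated
    infer_instance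
  exact UniformSpace.metrizableSpace

/-! ## The space -/

/-- finitely supported real sequences -/
@[ext]
structure X where
  /-- the terms of the sequence -/
  val : ℕ → ℝ
  fin : ∃ N, ∀ n, N ≤ n → val n = 0

theorem X.bdd (x : X) : ∃ C, ∀ i j, dist (x.val i) (x.val j) ≤ C := by
  obtain ⟨N, hN⟩ := x.fin
  refine ⟨∑ i ∈ Finset.range N, |x.val i| + ∑ i ∈ Finset.range N, |x.val i|, fun i j => ?_⟩
  have h : ∀ i, |x.val i| ≤ ∑ i ∈ Finset.range N, |x.val i| := by
    intro i
    rcases lt_or_ge i N with h | h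
    · exact Finset.single_le_sum (f := fun i => |x.val i|) (fun _ _ => abs_nonneg _)
        (Finset.mem_range.2 h)
    · rw [hN i h, abs_zero]
      exact Finset.sum_nonneg fun _ _ => abs_nonneg _
  calc dist (x.val i) (x.val j) ≤ dist (x.val i) 0 + dist 0 (x.val j) := dist_triangle _ _ _
    _ = |x.val i| + |x.val j| := by rw [dist_zero_right, dist_zero_left]; rfl
    _ ≤ _ := add_le_add (h i) (h j)

/-- the inclusion into bounded sequences -/
def toB (x : X) : BoundedContinuousFunction ℕ ℝ :=
  BoundedContinuousFunction.mkOfDiscrete x.val (Classical.choose x.bdd)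
    (Classical.choose_spec x.bdd)

theorem toB_apply (x : X) (n : ℕ) : toB x n = x.val n := rfl

theorem toB_inj : Function.Injective toB := by
  intro x y h
  apply X.ext
  funext n
  exact congrArg (fun f : BoundedContinuousFunction ℕ ℝ => f n) h

instance metX : MetricSpace X := MetricSpace.induced toB toB_inj inferInstance

theorem dist_le_iff {x y : X} {C : ℝ} (hC : 0 ≤ C) :
    dist x y ≤ C ↔ ∀ n, |x.val n - y.val n| ≤ C := by
  change dist (toB x) (toB y) ≤ C ↔ _
  rw [BoundedContinuousFunction.dist_le hC]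
  rfl

theorem abs_le_dist (x y : X) (n : ℕ) : |x.val n - y.val n| ≤ dist x y :=
  (dist_le_iff dist_nonneg).1 le_rfl n

/-- coordinatewise action -/
def act (g : Gam) (x : X) : X where
  val n := g.1 n (x.val n)
  fin := by
    obtain ⟨N, hN⟩ := x.fin
    obtain ⟨M, hM⟩ := g.2
    refine ⟨max N M, fun n hn => ?_⟩
    rw [hN n (le_trans (le_max_left _ _) hn), hM n (le_trans (le_max_right _ _) hn)]
    rfl

instance actX : MulAction Gam X where
  smul := act
  one_smul _ := rfl
  mul_smul _ _ _ := rfl

theorem smul_val (g : Gam) (x : X) (n : ℕ) : (g • x).val n = g.1 n (x.val n) := rfl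

/-- the action has one orbit -/
theorem transitive (x y : X) : ∃ g : Gam, g • x = y := by
  obtain ⟨N, hN⟩ := x.fin
  obtain ⟨M, hM⟩ := y.fin
  refine ⟨⟨fun n => OrderIso.addRight (y.val n - x.val n), max N M, fun n hn => ?_⟩, ?_⟩
  · change OrderIso.addRight (y.val n - x.val n) = 1
    rw [hN n (le_trans (le_max_left _ _) hn), hM n (le_trans (le_max_right _ _) hn)]
    ext t
    simp
  · apply X.ext
    funext n
    rw [smul_val]
    simp

/-- each group element acts continuously -/
theorem continuous_smul_const (g : Gam) : Continuous fun x : X => g • x := by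
  rw [Metric.continuous_iff]
  intro x ε hε
  obtain ⟨M, hM⟩ := g.2
  have h1 : ∀ n, ∃ δ > 0, ∀ t, |t - x.val n| < δ → |g.1 n t - g.1 n (x.val n)| < ε / 2 := by
    intro n
    have hc : Continuous (g.1 n) := (g.1 n).continuous
    have := Metric.continuous_iff.1 hc (x.val n) (ε / 2) (half_pos hε)
    obtain ⟨δ, hδ, h⟩ := this
    exact ⟨δ, hδ, fun t ht => h t ht⟩
  choose δ hδ h using h1
  obtain ⟨d, hd, hd'⟩ : ∃ d > 0, ∀ n < M, d ≤ δ n := by
    clear hM
    induction M with
    | zero => exact ⟨1, one_pos, fun n hn => absurd hn (Nat.not_lt_zero _)⟩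
    | succ M ih =>
      obtain ⟨d, hd, hd'⟩ := ih
      refine ⟨min d (δ M), lt_min hd (hδ M), fun n hn => ?_⟩
      rcases Nat.lt_succ_iff_lt_or_eq.1 hn with h | rfl
      · exact (min_le_left _ _).trans (hd' n h)
      · exact min_le_right _ _
  refine ⟨min d (ε / 2), lt_min hd (half_pos hε), fun y hy => ?_⟩
  refine lt_of_le_of_lt ((dist_le_iff (half_pos hε).le).2 fun n => ?_) (half_lt_self hε)
  have hy' := lt_of_le_of_lt (abs_le_dist y x n) hy
  rw [smul_val, smul_val]
  rcases lt_or_ge n M with hn | hn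
  · exact (h n _ (hy'.trans_le ((min_le_left _ _).trans (hd' n hn)))).le
  · rw [hM n hn]
    exact (hy'.trans_le (min_le_right _ _)).le

theorem W_small {h : ℝ ≃o ℝ} (hh : h ∈ W) {j : ℕ} {t : ℝ} (ht : |t| < (1 / 2 : ℝ) ^ j) :
    |h t| < (1 / 2 : ℝ) ^ j := by
  rcases le_or_gt t 0 with h0 | h0
  · rwa [hh.1 t h0]
  · have h1 : h 0 < h t := h.strictMono h0
    rw [hh.1 0 le_rfl] at h1
    have h2 : h t < h ((1 / 2 : ℝ) ^ j) := h.strictMono ((le_abs_self t).trans_lt ht)
    rw [hh.2 j] at h2
    rwa [abs_of_pos h1]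

/-- joint continuity at the identity -/
theorem smul_near_one (x : X) (ε : ℝ) (hε : 0 < ε) :
    ∃ k : ℕ, ∃ δ > 0, ∀ v ∈ V k, ∀ y : X, dist y x < δ → dist (v • y) x < ε := by
  obtain ⟨N, hN⟩ := x.fin
  obtain ⟨j, hj⟩ := exists_pow_lt_of_lt_one hε (show (1 / 2 : ℝ) < 1 by norm_num)
  refine ⟨N, min ((1 / 2 : ℝ) ^ j) (ε / 2), lt_min (by positivity) (half_pos hε),
    fun v hv y hy => ?_⟩
  have hm : max ((1 / 2 : ℝ) ^ j) (ε / 2) < ε := max_lt hj (half_lt_self hε)
  refine lt_of_le_of_lt ((dist_le_iff (le_max_of_le_right (half_pos hε).le)).2 fun n => ?_) hm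
  have hy' := lt_of_le_of_lt (abs_le_dist y x n) hy
  rw [smul_val]
  rcases lt_or_ge n N with hn | hn
  · rw [hv.1 n hn]
    exact (hy'.trans_le (min_le_right _ _)).le.trans (le_max_right _ _)
  · rw [hN n hn, sub_zero] at hy' ⊢
    exact (W_small (hv.2 n) (hy'.trans_le (min_le_left _ _))).le.trans (le_max_left _ _)

instance : ContinuousSMul Gam X where
  continuous_smul := by
    rw [continuous_iff_continuousAt]
    rintro ⟨g, x⟩
    have h1 : Tendsto (fun p : Gam × X => p.1 • p.2) (𝓝 ((1 : Gam), g • x)) (𝓝 (g • x)) := by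
      rw [Metric.tendsto_nhds]
      intro ε hε
      obtain ⟨k, δ, hδ, h⟩ := smul_near_one (g • x) ε hε
      rw [nhds_prod_eq]
      have ha : (V k : Set Gam) ∈ 𝓝 (1 : Gam) := nhds_one_basis.mem_of_mem trivial
      have hb : Metric.ball (g • x) δ ∈ 𝓝 (g • x) := Metric.ball_mem_nhds _ hδ
      filter_upwards [prod_mem_prod ha hb] with p hp
      exact h p.1 hp.1 p.2 hp.2
    have h2 : Tendsto (fun p : Gam × X => ((p.1 * g⁻¹, g • p.2) : Gam × X)) (𝓝 (g, x))
        (𝓝 ((1 : Gam), g • x)) := by
      have hc : Continuous (fun p : Gam × X => ((p.1 * g⁻¹, g • p.2) : Gam × X)) :=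
        (continuous_fst.mul continuous_const).prodMk ((continuous_smul_const g).comp continuous_snd)
      have := hc.tendsto (g, x)
      simpa using this
    have h3 := h1.comp h2
    have h4 : ((fun p : Gam × X => p.1 • p.2) ∘ fun p : Gam × X => ((p.1 * g⁻¹, g • p.2) : Gam × X))
        = fun p : Gam × X => p.1 • p.2 := by
      funext p
      simp [smul_smul]
    rw [h4] at h3
    exact h3

/-! ## No equivariant compactification -/

/-- the sequence with a single entry `t` at place `K` -/
def single (K : ℕ) (t : ℝ) : X where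
  val := Function.update 0 K t
  fin := ⟨K + 1, fun n hn => by
    rw [Function.update_of_ne (by omega)]
    rfl⟩

theorem dist_single (K : ℕ) (s t : ℝ) : dist (single K s) (single K t) = |s - t| := by
  apply le_antisymm
  · refine (dist_le_iff (abs_nonneg _)).2 fun n => ?_
    change |Function.update (0 : ℕ → ℝ) K s n - Function.update (0 : ℕ → ℝ) K t n| ≤ _
    rcases eq_or_ne n K with rfl | hn
    · simp
    · simp [Function.update_of_ne hn]
  · have := abs_le_dist (single K s) (single K t) K
    change |Function.update (0 : ℕ → ℝ) K s K - Function.update (0 : ℕ → ℝ) K t K| ≤ _ at this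
    simpa using this

theorem continuous_single (K : ℕ) : Continuous (single K) := by
  rw [Metric.continuous_iff]
  intro t ε hε
  exact ⟨ε, hε, fun s hs => by rw [dist_single]; exact hs⟩

/-- the group element acting by `h` in the place `K` -/
def gsingle (K : ℕ) (h : ℝ ≃o ℝ) : Gam :=
  ⟨Function.update 1 K h, K + 1, fun n hn => by
    rw [Function.update_of_ne (by omega)]
    rfl⟩

theorem gsingle_mem (K : ℕ) {h : ℝ ≃o ℝ} (hh : h ∈ W) : gsingle K h ∈ V K := by
  refine ⟨fun n hn => ?_, fun n => ?_⟩
  · change Function.update (1 : ℕ → (ℝ ≃o ℝ)) K h n = 1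
    rw [Function.update_of_ne (by omega)]
    rfl
  · change Function.update (1 : ℕ → (ℝ ≃o ℝ)) K h n ∈ W
    rcases eq_or_ne n K with rfl | hn
    · rwa [Function.update_self]
    · rw [Function.update_of_ne hn]
      exact W.one_mem

theorem gsingle_smul (K : ℕ) (h : ℝ ≃o ℝ) (t : ℝ) :
    gsingle K h • single K t = single K (h t) := by
  apply X.ext
  funext n
  rw [smul_val]
  change (Function.update (1 : ℕ → (ℝ ≃o ℝ)) K h n) (Function.update (0 : ℕ → ℝ) K t n) =
    Function.update (0 : ℕ → ℝ) K (h t) n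
  rcases eq_or_ne n K with rfl | hn
  · simp
  · simp [Function.update_of_ne hn]

theorem single_zero (K L : ℕ) : single K 0 = single L 0 := by
  apply X.ext
  funext n
  change Function.update (0 : ℕ → ℝ) K 0 n = Function.update (0 : ℕ → ℝ) L 0 n
  rw [show (0 : ℝ) = (0 : ℕ → ℝ) K from rfl, Function.update_eq_self]
  rw [show (0 : ℕ → ℝ) K = (0 : ℕ → ℝ) L from rfl, Function.update_eq_self]

/-- one step of the chain -/
theorem step {φ : ℝ → ℝ} (hφ : Continuous φ) {ε : ℝ} (hε : 0 < ε)
    (hW : ∀ h ∈ W, ∀ t, |φ (h t) - φ t| < ε) (i : ℕ) :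
    φ ((1 / 2 : ℝ) ^ i) ≤ φ ((1 / 2 : ℝ) ^ (i + 1)) + 3 * ε := by
  set p := (1 / 2 : ℝ) ^ (i + 1) with hp
  set q := (1 / 2 : ℝ) ^ i with hq
  have hpos : 0 < q := by positivity
  have hpq : p = q / 2 := by rw [hp, hq, pow_succ]; ring
  have hlt : p < q := by linarith
  obtain ⟨δ1, hδ1, h1⟩ := Metric.continuous_iff.1 hφ p ε hε
  obtain ⟨δ2, hδ2, h2⟩ := Metric.continuous_iff.1 hφ q ε hε
  set d := min (min δ1 δ2) (q - p) / 2 with hd
  have hd0 : 0 < d := by
    have : 0 < min (min δ1 δ2) (q - p) := lt_min (lt_min hδ1 hδ2) (by linarith)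
    positivity
  have hd1 : d < δ1 := by
    have : min (min δ1 δ2) (q - p) ≤ δ1 := (min_le_left _ _).trans (min_le_left _ _)
    linarith
  have hd2 : d < δ2 := by
    have : min (min δ1 δ2) (q - p) ≤ δ2 := (min_le_left _ _).trans (min_le_right _ _)
    linarith
  have hd3 : d < q - p := by
    have : min (min δ1 δ2) (q - p) ≤ q - p := min_le_right _ _
    linarith
  obtain ⟨h, hb, hfix⟩ := exists_iso (p := p) (b := p + d) (b' := q - d) (q := q)
    (by linarith) (by linarith) (by linarith) (by linarith)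
  have hhW : h ∈ W := by
    refine ⟨fun t ht => hfix t (Or.inl ?_), fun j => hfix _ ?_⟩
    · have : 0 < p := by linarith
      linarith
    · rcases Nat.lt_or_ge i j with hij | hij
      · exact Or.inl (pow_le_pow_of_le_one (by norm_num) (by norm_num) hij)
      · exact Or.inr (pow_le_pow_of_le_one (by norm_num) (by norm_num) hij)
  have e1 := h1 (p + d) (by rw [Real.dist_eq]; simpa [abs_of_pos hd0] using hd1)
  have e2 := h2 (q - d) (by rw [Real.dist_eq]; simpa [abs_of_pos hd0] using hd2)
  have e3 := hW h hhW (p + d)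
  rw [hb] at e3
  rw [Real.dist_eq] at e1 e2
  have f1 := abs_lt.1 e1
  have f2 := abs_lt.1 e2
  have f3 := abs_lt.1 e3
  linarith [f1.1, f1.2, f2.1, f2.2, f3.1, f3.2]

/-- a continuous function on a compact `G`-space is uniformly almost invariant under small group
elements -/
theorem unif {Y : Type*} [TopologicalSpace Y] [CompactSpace Y] [MulAction Gam Y]
    [ContinuousSMul Gam Y] {F : Y → ℝ} (hF : Continuous F) {ε : ℝ} (hε : 0 < ε) :
    ∃ k, ∀ v ∈ V k, ∀ y, |F (v • y) - F y| < ε := by
  have hc : Continuous fun p : Gam × Y => |F (p.1 • p.2) - F p.2| :=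
    ((hF.comp continuous_smul).sub (hF.comp continuous_snd)).abs
  have hopen : IsOpen {p : Gam × Y | |F (p.1 • p.2) - F p.2| < ε} :=
    isOpen_lt hc continuous_const
  have hsub : ({(1 : Gam)} : Set Gam) ×ˢ (univ : Set Y) ⊆
      {p : Gam × Y | |F (p.1 • p.2) - F p.2| < ε} := by
    rintro ⟨g, y⟩ ⟨hg, -⟩
    rw [mem_singleton_iff] at hg
    simp only at hg
    subst hg
    simpa using hε
  obtain ⟨u, v, hu, hv, hu1, hv1, huv⟩ :=
    generalized_tube_lemma isCompact_singleton isCompact_univ hopen hsub
  have hmem : u ∈ 𝓝 (1 : Gam) := hu.mem_nhds (hu1 rfl)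
  obtain ⟨k, -, hk⟩ := nhds_one_basis.mem_iff.1 hmem
  refine ⟨k, fun g hg y => ?_⟩
  have hmem2 : (g, y) ∈ u ×ˢ v := ⟨hk hg, hv1 (mem_univ y)⟩
  exact huv hmem2

theorem not_embeddable {Y : Type*} [TopologicalSpace Y] [CompactSpace Y] [T2Space Y]
    [MulAction Gam Y] [ContinuousSMul Gam Y] (ν : X → Y) (hν : IsEmbedding ν)
    (heq : ∀ (g : Gam) (x : X), ν (g • x) = g • ν x) : False := by
  set x0 : X := single 0 0 with hx0
  set C : Set X := {x | 1 ≤ dist x x0} with hC
  have hCc : IsClosed C := isClosed_le continuous_const (continuous_id.dist continuous_const)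
  have hx0C : x0 ∉ C := by
    rw [hC, mem_ofPred_eq, dist_self]
    norm_num
  have hcl : ν x0 ∉ closure (ν '' C) := by
    intro h
    have : x0 ∈ closure C := by
      rw [hν.isInducing.closure_eq_preimage_closure_image]
      exact h
    rw [hCc.closure_eq] at this
    exact hx0C this
  obtain ⟨F, hF0, hF1, -⟩ := exists_continuous_zero_one_of_isClosed
    (isClosed_singleton (x := ν x0)) (isClosed_closure (s := ν '' C))
    (disjoint_singleton_left.2 hcl)
  have hfc : Continuous fun x : X => F (ν x) := F.continuous.comp hν.continuous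
  have hf0 : F (ν x0) = 0 := hF0 rfl
  obtain ⟨δ, hδ, hδ'⟩ := Metric.continuous_iff.1 hfc x0 (1 / 2) (by norm_num)
  obtain ⟨j, hj⟩ := exists_pow_lt_of_lt_one hδ (show (1 / 2 : ℝ) < 1 by norm_num)
  obtain ⟨K, hK⟩ := unif F.continuous (show (0 : ℝ) < 1 / (6 * (j + 1)) by positivity)
  set φ : ℝ → ℝ := fun t => F (ν (single K t)) with hφ
  have hφc : Continuous φ := hfc.comp (continuous_single K)
  have hφW : ∀ h ∈ W, ∀ t, |φ (h t) - φ t| < 1 / (6 * (j + 1)) := by
    intro h hh t
    have := hK _ (gsingle_mem K hh) (ν (single K t))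
    rwa [← heq, gsingle_smul] at this
  have hx0K : x0 = single K 0 := single_zero 0 K
  have hsmall : φ ((1 / 2 : ℝ) ^ j) < 1 / 2 := by
    have hd : dist (single K ((1 / 2 : ℝ) ^ j)) x0 < δ := by
      rw [hx0K, dist_single, sub_zero, abs_of_pos (by positivity)]
      exact hj
    have := hδ' _ hd
    rw [Real.dist_eq, hf0, sub_zero] at this
    exact (le_abs_self _).trans_lt this
  have hbig : φ 1 = 1 := by
    have hmem : single K 1 ∈ C := by
      rw [hC, mem_ofPred_eq, hx0K, dist_single]
      norm_num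
    exact hF1 (subset_closure (mem_image_of_mem ν hmem))
  have hchain : ∀ i : ℕ, φ 1 ≤ φ ((1 / 2 : ℝ) ^ i) + i * (3 * (1 / (6 * ((j : ℝ) + 1)))) := by
    intro i
    induction i with
    | zero => simp
    | succ i ih =>
      have := step hφc (show (0 : ℝ) < 1 / (6 * (j + 1)) by positivity) hφW i
      push_cast
      linarith
  have h1 := hchain j
  have h2 : (j : ℝ) * (3 * (1 / (6 * ((j : ℝ) + 1)))) ≤ 1 / 2 := by
    have : (0 : ℝ) ≤ j := Nat.cast_nonneg j
    rw [show (j : ℝ) * (3 * (1 / (6 * ((j : ℝ) + 1)))) = (j / (j + 1)) / 2 by field_simp; ring]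
    have : (j : ℝ) / (j + 1) ≤ 1 := (div_le_one (by positivity)).2 (by linarith)
    linarith
  linarith

end

universe u

/-- **Answer to the question of Furstenberg and Scarr (negative).**  There are a metrizable
topological group `G`, a nonempty metrizable space `X` and a jointly continuous action of `G` on
`X` with exactly one orbit, such that there is no equivariant topological embedding of `X` into
a compact Hausdorff space with a jointly continuous action of `G`. -/
theorem result :
    ∃ (G : Type) (_ : Group G) (_ : TopologicalSpace G) (_ : IsTopologicalGroup G)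
      (_ : TopologicalSpace.MetrizableSpace G)
      (X : Type) (_ : TopologicalSpace X) (_ : TopologicalSpace.MetrizableSpace X)
      (_ : MulAction G X) (_ : ContinuousSMul G X),
      Nonempty X ∧ (∀ x y : X, ∃ g : G, g • x = y) ∧
      ∀ (Y : Type u) (_ : TopologicalSpace Y) (_ : CompactSpace Y) (_ : T2Space Y)
        (_ : MulAction G Y) (_ : ContinuousSMul G Y),
        ¬ ∃ ν : X → Y, IsEmbedding ν ∧ ∀ (g : G) (x : X), ν (g • x) = g • ν x := by
  refine ⟨Gam, inferInstance, inferInstance, inferInstance, inferInstance, X, inferInstance,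
    inferInstance, inferInstance, inferInstance, ⟨single 0 0⟩, transitive, ?_⟩
  rintro Y _ _ _ _ _ ⟨ν, hν, heq⟩
  exact not_embeddable ν hν heq

end Pool.Agent.H101R3.OneOrbit
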