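import Mathlib

/-! Two small facts on the weak topology of a real normed space. -/

namespace Pool.Agent.H101R3.Weak

open Filter Topology

lemma weak_tendsto_of {V : Type*} [NormedAddCommGroup V] [NormedSpace ℝ V] {α : Type*}
    {l : Filter α} {f : α → V} {x : V}
    (h : ∀ Λ : V →L[ℝ] ℝ, Tendsto (fun a => Λ (f a)) l (𝓝 (Λ x))) :
    Tendsto (fun a => toWeakSpace ℝ V (f a)) l (𝓝 (toWeakSpace ℝ V x)) := by
  have hinj : Function.Injective (topDualPairing ℝ V).flip := by
    intro a b hab
    refine (SeparatingDual.eq_iff_forall_dual_eq (R := ℝ)).mpr fun g => ?_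
    exact DFunLike.congr_fun hab g
  exact (WeakBilin.tendsto_iff_forall_eval_tendsto (topDualPairing ℝ V).flip hinj).mpr h

lemma weak_eval {V : Type*} [NormedAddCommGroup V] [NormedSpace ℝ V] (Λ : V →L[ℝ] ℝ) :
    Continuous fun w : WeakSpace ℝ V => Λ ((toWeakSpace ℝ V).symm w) :=
  WeakBilin.eval_continuous (topDualPairing ℝ V).flip Λ

end Pool.Agent.H101R3.Weak
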